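import Mathlib
import Pool.Agent.N780.Sieg

set_option autoImplicit false

/-!
Siegel's lemma and the bound for the number of independent power series; the radius of convergence of the power
series is at least `ρ`.
-/

namespace Pool.Agent.N780

open PowerSeries

attribute [local instance] Matrix.seminormedAddCommGroup

theorem coeff_le_rescale {ρ : ℝ} (hρ0 : 0 < ρ) {f : ℂ⟦X⟧} (hf : Conv (rescale (ρ : ℂ) f)) (u : ℕ) :
    ‖coeff u f‖ ≤ nrm (1 / 2) (rescale (ρ : ℂ) f) * (2 / ρ) ^ u := by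
  have h1 := hf.coeff_le (r := 1 / 2) (by norm_num) (by norm_num) u
  rw [coeff_rescale, norm_mul, norm_pow, Complex.norm_real, Real.norm_of_nonneg hρ0.le] at h1
  have h2 : (1 : ℝ) / (1 / 2) = 2 := by norm_num
  rw [h2] at h1
  rw [div_pow, mul_div_assoc', le_div_iff₀ (pow_pos hρ0 u)]
  linarith

namespace Datum

variable (E : Datum)

/-- the good power series -/
def GoodR (ρ : ℝ) (f : ℂ⟦X⟧) : Prop :=
  (∀ s, (E.d s : ℂ) * coeff s f ∈ E.O) ∧ Conv (rescale (ρ : ℂ) f) ∧ Conv (E.σ f)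

theorem goodR_den {ρ : ℝ} {f : ℂ⟦X⟧} (hf : E.GoodR ρ f) {s t : ℕ} (h : s ≤ t) :
    (E.d t : ℂ) * coeff s f ∈ E.O := by
  obtain ⟨k, rfl⟩ := Nat.exists_eq_add_of_le h
  obtain ⟨l, hl⟩ := (dvd_mul_right _ _).trans (E.hdm s k)
  have e : ((E.d (s + k) : ℕ) : ℂ) * coeff s f = (l : ℂ) * ((E.d s : ℂ) * coeff s f) := by
    rw [hl]; push_cast; ring
  rw [e]
  exact E.O.mul_mem (natCast_mem _ l) (hf.1 s)

theorem goodR_mul {ρ : ℝ} {f g : ℂ⟦X⟧} (hf : E.GoodR ρ f) (hg : E.GoodR ρ g) :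
    E.GoodR ρ (f * g) := by
  refine ⟨fun s => ?_, by rw [map_mul]; exact hf.2.1.mul hg.2.1,
    by rw [map_mul]; exact hf.2.2.mul hg.2.2⟩
  rw [coeff_mul, Finset.mul_sum]
  refine E.O.sum_mem fun p hp => ?_
  rw [Finset.HasAntidiagonal.mem_antidiagonal] at hp
  obtain ⟨l, hl⟩ := E.hdm p.1 p.2
  rw [hp] at hl
  have e : (E.d s : ℂ) * (coeff p.1 f * coeff p.2 g) =
      (l : ℂ) * (((E.d p.1 : ℂ) * coeff p.1 f) * ((E.d p.2 : ℂ) * coeff p.2 g)) := by
    rw [hl]; push_cast; ring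
  rw [e]
  exact E.O.mul_mem (natCast_mem _ l) (E.O.mul_mem (hf.1 _) (hg.1 _))

theorem goodR_one (ρ : ℝ) : E.GoodR ρ 1 := by
  refine ⟨fun s => ?_, by rw [map_one]; exact conv_one, by rw [map_one]; exact conv_one⟩
  rw [coeff_one]
  split_ifs
  · rw [mul_one]; exact natCast_mem _ _
  · rw [mul_zero]; exact E.O.zero_mem

theorem siegel_stepR {ρ : ℝ} {m D N : ℕ} (hN : 0 < N) (h2 : 2 * N < m * D) (g : Fin m → ℂ⟦X⟧)
    (hg : ∀ i, E.GoodR ρ (g i)) {B : ℝ} (hB1 : 1 ≤ B)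
    (hB : ∀ i s t, s < N → t ≤ s → E.Cc * ‖(E.d s : ℂ) * coeff t (g i)‖ ≤ B) :
    ∃ t : Fin m × Fin D → ℤ, t ≠ 0 ∧
      (∀ p, |((t p : ℤ) : ℝ)| ≤ ((m * D : ℕ) * B) ^ (((2 * N : ℕ) : ℝ) / ((m * D : ℕ) - (2 * N : ℕ)))) ∧
      ∀ s < N, ∑ p : Fin m × Fin D, ((t p : ℤ) : ℂ) *
        (if (p.2 : ℕ) ≤ s then coeff (s - p.2) (g p.1) else 0) = 0 := by
  classical
  have hmem : ∀ (i : Fin m) (s t : ℕ), (E.d s : ℂ) * (if t ≤ s then coeff (s - t) (g i) else 0) ∈
      E.O := by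
    intro i s t
    split_ifs
    · exact E.goodR_den (hg i) (Nat.sub_le _ _)
    · rw [mul_zero]; exact E.O.zero_mem
  set el : ℕ → Fin m × Fin D → E.O := fun s p =>
    ⟨(E.d s : ℂ) * (if (p.2 : ℕ) ≤ s then coeff (s - p.2) (g p.1) else 0), hmem _ _ _⟩ with hel
  set A : Matrix (Fin N × Fin 2) (Fin m × Fin D) ℤ := fun q p => E.co q.2 (el q.1 p) with hA
  have hcA : Fintype.card (Fin N × Fin 2) = 2 * N := by
    rw [Fintype.card_prod, Fintype.card_fin, Fintype.card_fin]; ring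
  have hcB : Fintype.card (Fin m × Fin D) = m * D := by
    rw [Fintype.card_prod, Fintype.card_fin, Fintype.card_fin]
  obtain ⟨t, ht0, htA, htn⟩ := Int.Matrix.exists_ne_zero_int_vec_norm_le A
    (by rw [hcA, hcB]; exact h2) (by rw [hcA]; omega)
  rw [hcA, hcB] at htn
  have hAn : ‖A‖ ≤ B := by
    rw [Matrix.norm_le_iff (by linarith)]
    intro q p
    rw [Int.norm_eq_abs]
    refine (E.hco _ _).trans ?_
    change E.Cc * ‖(E.d q.1 : ℂ) * (if (p.2 : ℕ) ≤ q.1 then coeff (q.1 - p.2) (g p.1) else 0)‖ ≤ B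
    split_ifs with h
    · exact hB _ _ _ q.1.2 (Nat.sub_le _ _)
    · rw [mul_zero, norm_zero, mul_zero]; linarith
  refine ⟨t, ht0, fun p => ?_, fun s hs => ?_⟩
  · rw [← Int.norm_eq_abs]
    refine (norm_le_pi_norm t p).trans (htn.trans ?_)
    have h3 : (0 : ℝ) ≤ ((2 * N : ℕ) : ℝ) / (((m * D : ℕ) : ℝ) - ((2 * N : ℕ) : ℝ)) := by
      have : ((2 * N : ℕ) : ℝ) < ((m * D : ℕ) : ℝ) := by exact_mod_cast h2
      have : (0 : ℝ) < ((m * D : ℕ) : ℝ) - ((2 * N : ℕ) : ℝ) := by linarith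
      positivity
    refine Real.rpow_le_rpow (by positivity) ?_ h3
    have : max 1 ‖A‖ ≤ B := max_le hB1 hAn
    gcongr
  · have h4 : ∑ p : Fin m × Fin D, t p • el s p = 0 := by
      refine E.hco0 _ fun l => ?_
      rw [map_sum]
      have := congrFun htA (⟨s, hs⟩, l)
      rw [Matrix.mulVec, dotProduct] at this
      rw [Pi.zero_apply] at this
      rw [← this]
      refine Finset.sum_congr rfl fun p _ => ?_
      rw [map_zsmul, smul_eq_mul, mul_comm]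
    have h5 : (E.d s : ℂ) * ∑ p : Fin m × Fin D, ((t p : ℤ) : ℂ) *
        (if (p.2 : ℕ) ≤ s then coeff (s - p.2) (g p.1) else 0) = 0 := by
      have h6 := congrArg (fun x : E.O => (x : ℂ)) h4
      simp only [ZeroMemClass.coe_zero, AddSubmonoidClass.coe_finsetSum] at h6
      refine Eq.trans ?_ h6
      rw [Finset.mul_sum]
      refine Finset.sum_congr rfl fun p _ => ?_
      simp only [hel, zsmul_eq_mul, Subring.coe_mul, Subring.coe_intCast]
      ring
    rcases mul_eq_zero.1 h5 with h | h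
    · exact absurd (by exact_mod_cast h) (E.hd0 s)
    · exact h

/-- upper and lower bound for the first coefficient -/
theorem bound_stepR {ρ : ℝ} {m D N : ℕ} (g : Fin m → ℂ⟦X⟧) (hg : ∀ i, E.GoodR ρ (g i))
    (t : Fin m × Fin D → ℤ) {H : ℝ} (hH0 : 0 ≤ H) (hH : ∀ p, |((t p : ℤ) : ℝ)| ≤ H)
    (hz : ∀ s < N, coeff s (aux g t) = 0) (hne : aux g t ≠ 0) {r : ℝ} (hr0 : 0 < r) (hr1 : r < 1)
    (hκ : 0 < Real.log (‖coeff 1 E.φ‖ * r) - E.T) :
    Real.exp ((Real.log (‖coeff 1 E.φ‖ * r) - E.T) * N) ≤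
      H * (m * D) * (max 1 (nrm r E.φ)) ^ D * ∑ i, nrm r (E.σ (g i)) := by
  classical
  have hex : ∃ s, coeff s (aux g t) ≠ 0 := by
    by_contra hcon
    push Not at hcon
    exact hne (PowerSeries.ext fun s => by rw [hcon s, map_zero])
  set M := Nat.find hex with hM
  have hM1 : coeff M (aux g t) ≠ 0 := Nat.find_spec hex
  have hM2 : ∀ s < M, coeff s (aux g t) = 0 := fun s hs => by
    have := Nat.find_min hex hs
    push Not at this
    exact this
  have hNM : N ≤ M := by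
    by_contra h
    push Not at h
    exact hM1 (hz M h)
  have ha0 : 0 < ‖coeff 1 E.φ‖ := (Real.exp_pos _).trans E.hφ1
  -- lower bound
  have hlow : 1 ≤ (E.d M : ℝ) * ‖coeff M (aux g t)‖ := by
    have h1 : (E.d M : ℂ) * coeff M (aux g t) ∈ E.O := by
      rw [coeff_aux, Finset.mul_sum]
      refine E.O.sum_mem fun p _ => ?_
      have e : (E.d M : ℂ) * (((t p : ℤ) : ℂ) *
          (if (p.2 : ℕ) ≤ M then coeff (M - p.2) (g p.1) else 0)) = ((t p : ℤ) : ℂ) *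
          ((E.d M : ℂ) * (if (p.2 : ℕ) ≤ M then coeff (M - p.2) (g p.1) else 0)) := by ring
      rw [e]
      refine E.O.mul_mem (intCast_mem _ _) ?_
      split_ifs
      · exact E.goodR_den (hg _) (Nat.sub_le _ _)
      · rw [mul_zero]; exact E.O.zero_mem
    have h2 : (E.d M : ℂ) * coeff M (aux g t) ≠ 0 :=
      mul_ne_zero (by exact_mod_cast E.hd0 M) hM1
    have h3 := E.hO _ h1 h2
    rwa [norm_mul, Complex.norm_natCast] at h3
  -- upper bound
  have hφc : ∀ k : ℕ, k < D → nrm r (E.φ ^ k) ≤ (max 1 (nrm r E.φ)) ^ D := by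
    intro k hk
    refine (nrm_pow hr0.le hr1 E.hφ k).trans ?_
    calc nrm r E.φ ^ k ≤ (max 1 (nrm r E.φ)) ^ k :=
          pow_le_pow_left₀ (nrm_nonneg hr0.le _) (le_max_right _ _) k
      _ ≤ (max 1 (nrm r E.φ)) ^ D := pow_le_pow_right₀ (le_max_left _ _) hk.le
  have hup : ‖coeff M (E.σ (aux g t))‖ * r ^ M ≤
      H * (m * D) * (max 1 (nrm r E.φ)) ^ D * ∑ i, nrm r (E.σ (g i)) := by
    have hterm : ∀ p : Fin m × Fin D,
        E.σ (C ((t p : ℤ) : ℂ) * (X ^ (p.2 : ℕ) * g p.1)) =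
          C ((t p : ℤ) : ℂ) * (E.φ ^ (p.2 : ℕ) * E.σ (g p.1)) := by
      intro p
      rw [map_mul, map_mul, map_pow, E.σ_C, E.σ_X]
    have hσ : E.σ (aux g t) = ∑ p : Fin m × Fin D,
        C ((t p : ℤ) : ℂ) * (E.φ ^ (p.2 : ℕ) * E.σ (g p.1)) := by
      unfold aux
      rw [map_sum]
      exact Finset.sum_congr rfl fun p _ => hterm p
    have hconv : ∀ p : Fin m × Fin D,
        Conv (C ((t p : ℤ) : ℂ) * (E.φ ^ (p.2 : ℕ) * E.σ (g p.1))) := fun p =>
      (conv_C _).mul ((E.hφ.pow _).mul (hg p.1).2.2)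
    have hconvs : Conv (E.σ (aux g t)) := by
      rw [hσ]; exact Conv.sum _ fun p _ => hconv p
    refine (le_nrm hr0.le hr1 hconvs M).trans ?_
    rw [hσ]
    refine (nrm_sum hr0.le hr1 _ fun p _ => hconv p).trans ?_
    have hpb : ∀ p : Fin m × Fin D, nrm r (C ((t p : ℤ) : ℂ) * (E.φ ^ (p.2 : ℕ) * E.σ (g p.1))) ≤
        H * (max 1 (nrm r E.φ)) ^ D * ∑ i, nrm r (E.σ (g i)) := by
      intro p
      refine (nrm_mul hr0.le hr1 (conv_C _) ((E.hφ.pow _).mul (hg p.1).2.2)).trans ?_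
      rw [nrm_C, Complex.norm_intCast, mul_assoc]
      have h5 : nrm r (E.φ ^ (p.2 : ℕ) * E.σ (g p.1)) ≤
          (max 1 (nrm r E.φ)) ^ D * ∑ i, nrm r (E.σ (g i)) := by
        refine (nrm_mul hr0.le hr1 (E.hφ.pow _) (hg p.1).2.2).trans ?_
        refine mul_le_mul (hφc _ p.2.2) ?_ (nrm_nonneg hr0.le _) (by positivity)
        exact Finset.single_le_sum (f := fun i => nrm r (E.σ (g i)))
          (fun i _ => nrm_nonneg hr0.le _) (Finset.mem_univ p.1)
      exact mul_le_mul (hH p) h5 (nrm_nonneg hr0.le _) hH0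
    calc _ ≤ ∑ p : Fin m × Fin D, H * (max 1 (nrm r E.φ)) ^ D * ∑ i, nrm r (E.σ (g i)) :=
          Finset.sum_le_sum fun p _ => hpb p
      _ = _ := by
          rw [Finset.sum_const, Finset.card_univ, Fintype.card_prod, Fintype.card_fin,
            Fintype.card_fin, nsmul_eq_mul]
          push_cast; ring
  -- combination
  rw [E.coeff_σ _ M hM2, norm_mul, norm_pow] at hup
  have hdM := E.hdT M
  have h6 : 0 ≤ ‖coeff M (aux g t)‖ := norm_nonneg _
  have h7 : Real.exp (-(E.T * M)) ≤ ‖coeff M (aux g t)‖ := by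
    rw [Real.exp_neg, inv_le_iff_one_le_mul₀ (Real.exp_pos _)]
    calc (1 : ℝ) ≤ (E.d M : ℝ) * ‖coeff M (aux g t)‖ := hlow
      _ ≤ Real.exp (E.T * M) * ‖coeff M (aux g t)‖ := by gcongr
      _ = _ := mul_comm _ _
  have h8 : Real.exp ((Real.log (‖coeff 1 E.φ‖ * r) - E.T) * M) ≤
      ‖coeff 1 E.φ‖ ^ M * ‖coeff M (aux g t)‖ * r ^ M := by
    have h9 : Real.exp (Real.log (‖coeff 1 E.φ‖ * r) * M) = (‖coeff 1 E.φ‖ * r) ^ M := by
      rw [mul_comm, ← Real.log_pow, Real.exp_log (by positivity)]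
    calc Real.exp ((Real.log (‖coeff 1 E.φ‖ * r) - E.T) * M)
        = Real.exp (Real.log (‖coeff 1 E.φ‖ * r) * M) * Real.exp (-(E.T * M)) := by
          rw [← Real.exp_add]; congr 1; ring
      _ ≤ (‖coeff 1 E.φ‖ * r) ^ M * ‖coeff M (aux g t)‖ := by rw [h9]; gcongr
      _ = _ := by rw [mul_pow]; ring
  refine le_trans ?_ (h8.trans hup)
  refine Real.exp_le_exp.2 ?_
  have : (N : ℝ) ≤ M := by exact_mod_cast hNM
  gcongr

/-- the number of independent good power series is bounded -/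
theorem coreR {ρ : ℝ} (hρ0 : 0 < ρ) (hρ1 : ρ ≤ 1) : ∃ m₀ : ℕ, ∀ m, m₀ ≤ m → ∀ g : Fin m → ℂ⟦X⟧, (∀ i, E.GoodR ρ (g i)) →
    ∃ P : Fin m → Polynomial ℤ, P ≠ 0 ∧ ∑ i, ev (P i) * g i = 0 := by
  classical
  obtain ⟨r, hr0, hr1, hκ⟩ := E.exists_r
  set κ₁ := Real.log (‖coeff 1 E.φ‖ * r) - E.T with hκ₁
  set K := Real.log (max 1 (nrm r E.φ)) with hK
  have hmax : (1 : ℝ) ≤ max 1 (nrm r E.φ) := le_max_left _ _
  have hK0 : 0 ≤ K := Real.log_nonneg hmax
  set κ := E.T + Real.log (2 / ρ) with hκd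
  have h2ρ : (1 : ℝ) ≤ 2 / ρ := by rw [le_div_iff₀ hρ0]; linarith
  have hκ0 : 0 ≤ κ := add_nonneg E.hT (Real.log_nonneg h2ρ)
  obtain ⟨q, hq⟩ := exists_nat_gt (4 * κ / κ₁ + 1)
  have hκq : 0 ≤ 4 * κ / κ₁ := by positivity
  have hq1 : (1 : ℝ) < q := by linarith
  have hq2 : 2 ≤ q := by
    have : 1 < q := by exact_mod_cast hq1
    omega
  have hqκ : 2 / ((q : ℝ) - 1) * κ ≤ κ₁ / 2 := by
    have h1 : 0 < (q : ℝ) - 1 := by linarith
    have h2 : 4 * κ / κ₁ < (q : ℝ) - 1 := by linarith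
    rw [div_lt_iff₀ hκ] at h2
    rw [div_mul_eq_mul_div, div_le_iff₀ h1]
    nlinarith
  obtain ⟨m₀, hm₀⟩ := exists_nat_gt (2 * K * (q + 1) / κ₁)
  refine ⟨max m₀ 1, fun m hm g hg => ?_⟩
  have hm1 : 1 ≤ m := (le_max_right _ _).trans hm
  have hmm : (m₀ : ℝ) ≤ m := by exact_mod_cast (le_max_left _ _).trans hm
  by_contra hcon
  push Not at hcon
  -- positive slope
  set ε := κ₁ / 2 * m - K * (q + 1) with hε
  have hε0 : 0 < ε := by
    have h1 : 2 * K * (q + 1) / κ₁ < m := lt_of_lt_of_le hm₀ hmm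
    rw [div_lt_iff₀ hκ] at h1
    rw [hε]; nlinarith
  -- constants
  set C₁ := ∑ i, nrm (1 / 2) (rescale (ρ : ℂ) (g i)) with hC₁
  have hC₁0 : 0 ≤ C₁ := Finset.sum_nonneg fun i _ => nrm_nonneg (by norm_num) _
  set C₂ := ∑ i, nrm r (E.σ (g i)) with hC₂
  have hC₂0 : 0 ≤ C₂ := Finset.sum_nonneg fun i _ => nrm_nonneg hr0.le _
  set C₃ := max 1 (E.Cc * C₁) with hC₃
  have hC₃1 : 1 ≤ C₃ := le_max_left _ _
  have hC₃0 : 0 < C₃ := by linarith
  -- the inequality for every `t`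
  have main : ∀ t : ℕ, 1 ≤ t → Real.exp (ε * t) ≤
      (m * ((q + 1) * t) * C₃) ^ (2 : ℝ) * (m * ((q + 1) * t)) * C₂ := by
    intro t ht
    set D := (q + 1) * t with hD
    set N := m * t with hN
    have hN0 : 0 < N := Nat.mul_pos (by omega) (by omega)
    have hmD : m * D = (q + 1) * N := by rw [hD, hN]; ring
    have h2N : 2 * N < m * D := by rw [hmD]; nlinarith
    set B := C₃ * Real.exp (κ * N) with hB
    have hNr : (0 : ℝ) ≤ N := Nat.cast_nonneg _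
    have hB1 : 1 ≤ B := by
      have : 1 ≤ Real.exp (κ * N) := Real.one_le_exp (by positivity)
      calc (1 : ℝ) = 1 * 1 := by ring
        _ ≤ B := by rw [hB]; gcongr
    have hBb : ∀ i s u, s < N → u ≤ s → E.Cc * ‖(E.d s : ℂ) * coeff u (g i)‖ ≤ B := by
      intro i s u hs hu
      rw [norm_mul, Complex.norm_natCast]
      have h1 := coeff_le_rescale hρ0 (hg i).2.1 u
      have h2 : nrm (1 / 2) (rescale (ρ : ℂ) (g i)) ≤ C₁ := Finset.single_le_sum
        (f := fun i => nrm (1 / 2) (rescale (ρ : ℂ) (g i))) (fun i _ => nrm_nonneg (by norm_num) _)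
        (Finset.mem_univ i)
      have h3 : ((2 : ℝ) / ρ) ^ u ≤ Real.exp (Real.log (2 / ρ) * N) := by
        have e : ((2 : ℝ) / ρ) ^ u = Real.exp (Real.log (2 / ρ) * u) := by
          rw [mul_comm, ← Real.log_pow, Real.exp_log (by positivity)]
        rw [e]
        refine Real.exp_le_exp.2 ?_
        have h4 : (u : ℝ) ≤ N := by exact_mod_cast (hu.trans hs.le)
        have h5 : 0 ≤ Real.log (2 / ρ) := Real.log_nonneg h2ρ
        gcongr
      have h6 : (E.d s : ℝ) ≤ Real.exp (E.T * N) := by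
        refine (E.hdT s).trans (Real.exp_le_exp.2 ?_)
        have h4 : (s : ℝ) ≤ N := by exact_mod_cast hs.le
        have := E.hT
        gcongr
      calc E.Cc * ((E.d s : ℝ) * ‖coeff u (g i)‖)
          ≤ E.Cc * (Real.exp (E.T * N) * (C₁ * Real.exp (Real.log (2 / ρ) * N))) := by
            have h7 : ‖coeff u (g i)‖ ≤ C₁ * Real.exp (Real.log (2 / ρ) * N) := h1.trans (by gcongr)
            have := E.hCc
            gcongr
        _ = (E.Cc * C₁) * Real.exp (κ * N) := by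
            rw [hκd, add_mul, Real.exp_add]; ring
        _ ≤ B := by
            rw [hB]
            have : E.Cc * C₁ ≤ C₃ := le_max_right _ _
            gcongr
    obtain ⟨v, hv0, hvb, hvz⟩ := E.siegel_stepR hN0 h2N g hg hB1 hBb
    have hne : aux g v ≠ 0 := by
      intro h
      rw [aux_eq] at h
      exact hcon _ (poly_ne hv0) h
    set Hh := (((m * D : ℕ) : ℝ) * B) ^
      (((2 * N : ℕ) : ℝ) / (((m * D : ℕ) : ℝ) - ((2 * N : ℕ) : ℝ))) with hHh
    have hmDr : (1 : ℝ) ≤ ((m * D : ℕ) : ℝ) := by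
      exact_mod_cast (show 1 ≤ m * D by omega)
    have hHh0 : 0 ≤ Hh := Real.rpow_nonneg (by positivity) _
    have hz : ∀ s < N, coeff s (aux g v) = 0 := fun s hs => by rw [coeff_aux]; exact hvz s hs
    have hbs := E.bound_stepR g hg v hHh0 hvb hz hne hr0 hr1 hκ
    rw [← hC₂] at hbs
    -- the exponent
    have hexp : (((2 * N : ℕ) : ℝ) / (((m * D : ℕ) : ℝ) - ((2 * N : ℕ) : ℝ))) = 2 / ((q : ℝ) - 1) := by
      rw [hmD]
      push_cast
      have h1 : (N : ℝ) ≠ 0 := by exact_mod_cast hN0.ne'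
      have h2 : (q : ℝ) - 1 ≠ 0 := by linarith
      have h3 : ((q : ℝ) + 1) * N - 2 * N = (q - 1) * N := by ring
      rw [h3]
      field_simp
    have hHle : Hh ≤ (((m * D : ℕ) : ℝ) * C₃) ^ (2 : ℝ) * Real.exp (κ₁ / 2 * N) := by
      rw [hHh, hexp, hB, ← mul_assoc, Real.mul_rpow (by positivity) (Real.exp_pos _).le,
        ← Real.exp_mul]
      have h1 : (1 : ℝ) ≤ ((m * D : ℕ) : ℝ) * C₃ := by
        calc (1 : ℝ) = 1 * 1 := by ring
          _ ≤ _ := by gcongr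
      have h2 : 2 / ((q : ℝ) - 1) ≤ 2 := by
        have h3 : (2 : ℝ) ≤ q := by exact_mod_cast hq2
        rw [div_le_iff₀ (by linarith)]; linarith
      have h4 : κ * N * (2 / ((q : ℝ) - 1)) ≤ κ₁ / 2 * N := by
        calc κ * N * (2 / ((q : ℝ) - 1)) = (2 / ((q : ℝ) - 1) * κ) * N := by ring
          _ ≤ κ₁ / 2 * N := by gcongr
      gcongr
    have hpow : (max 1 (nrm r E.φ)) ^ D = Real.exp (K * D) := by
      rw [hK, mul_comm, ← Real.log_pow, Real.exp_log (by positivity)]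
    have h10 : Real.exp (κ₁ * N) ≤ ((((m * D : ℕ) : ℝ) * C₃) ^ (2 : ℝ) * Real.exp (κ₁ / 2 * N)) *
        (m * D) * Real.exp (K * D) * C₂ := by
      refine hbs.trans ?_
      rw [hpow]
      gcongr
    have h11 : ε * t = κ₁ * N - κ₁ / 2 * N - K * D := by
      rw [hε, hN, hD]; push_cast; ring
    rw [h11, Real.exp_sub, Real.exp_sub, div_div, div_le_iff₀ (by positivity)]
    refine h10.trans (le_of_eq ?_)
    rw [hD]; push_cast; ring
  -- contradiction for large `t`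
  have hlim : Filter.Tendsto (fun t : ℕ => ((t : ℝ)) ^ 3 * Real.exp (-ε * t)) Filter.atTop
      (nhds 0) := by
    have h1 := (Real.tendsto_pow_mul_exp_neg_atTop_nhds_zero 3).comp
      ((Filter.tendsto_id.const_mul_atTop hε0).comp tendsto_natCast_atTop_atTop)
    have h2 := h1.const_mul (1 / ε ^ 3)
    rw [mul_zero] at h2
    refine h2.congr fun t => ?_
    simp only [Function.comp, id]
    field_simp
  set C₄ := (m * (q + 1) * C₃) ^ 2 * (m * (q + 1)) * C₂ with hC₄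
  have hlim2 := hlim.const_mul C₄
  rw [mul_zero] at hlim2
  have hev := (hlim2.eventually (gt_mem_nhds (show (0 : ℝ) < 1 by norm_num))).and
    (Filter.eventually_ge_atTop 1)
  obtain ⟨t, ht1, ht2⟩ := hev.exists
  have h1 := main t ht2
  have h2 : (m * ((q + 1) * t) * C₃) ^ (2 : ℝ) * (m * ((q + 1) * t)) * C₂ = C₄ * (t : ℝ) ^ 3 := by
    have : (m * ((q + 1) * t) * C₃) ^ (2 : ℝ) = (m * ((q + 1) * t) * C₃) ^ 2 := by
      exact_mod_cast Real.rpow_natCast _ 2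
    rw [this, hC₄]; ring
  rw [h2] at h1
  have h3 : 1 ≤ C₄ * ((t : ℝ) ^ 3 * Real.exp (-ε * t)) := by
    have h4 : Real.exp (ε * t) * Real.exp (-ε * t) = 1 := by
      rw [← Real.exp_add]; simp
    calc (1 : ℝ) = Real.exp (ε * t) * Real.exp (-ε * t) := h4.symm
      _ ≤ C₄ * (t : ℝ) ^ 3 * Real.exp (-ε * t) := by gcongr
      _ = _ := by ring
  linarith

end Datum

end Pool.Agent.N780
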