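import Mathlib

set_option autoImplicit false

/-!
Definitions for the statement of the criterion.
-/

namespace Pool.Agent.N780.PCurv

/-- There is a holomorphic map `φ` from the unit disc to the complement of the zeros of `q`, with `φ(0) = c` and
`|φ'(0)| > r`. (The supremum of these `r` is the conformal radius at `c` of the plane without the zeros of `q`.) -/
def HasDisc (c : ℂ) (q : Polynomial ℤ) (r : ℝ) : Prop :=
  ∃ φ : ℂ → ℂ, DifferentiableOn ℂ φ (Metric.ball 0 1) ∧ φ 0 = c ∧
    (∀ z ∈ Metric.ball (0 : ℂ) 1, Polynomial.aeval (φ z) q ≠ 0) ∧ r < ‖deriv φ 0‖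

/-- `c` is a rational integer or an integer of an imaginary quadratic field, and `q(c)` is a unit of `ℤ[c]`. -/
def IsBasePoint (c : ℂ) (q : Polynomial ℤ) : Prop :=
  ((∃ a : ℤ, c = a) ∨ (c.im ≠ 0 ∧ ∃ s t : ℤ, c ^ 2 = s * c + t)) ∧
    ∃ u ∈ Algebra.adjoin ℤ {c}, u * Polynomial.aeval c q = 1

end Pool.Agent.N780.PCurv
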