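import Mathlib
import Pool.Agent.N780.Words

set_option autoImplicit false

/-!
Radius of convergence of rescaled power series.
-/

namespace Pool.Agent.N780

open PowerSeries

theorem rescale_C' (a b : ℂ) : rescale a (C b : ℂ⟦X⟧) = C b := by
  ext s
  rw [coeff_rescale, coeff_C]
  split_ifs with h
  · subst h; simp
  · simp

theorem rescale_X' (a : ℂ) : rescale a (X : ℂ⟦X⟧) = C a * X := by
  ext s
  rw [coeff_rescale, coeff_C_mul, coeff_X]
  split_ifs with h
  · subst h; simp
  · simp

theorem deriv_rescale (a : ℂ) (f : ℂ⟦X⟧) :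
    d⁄dX ℂ (rescale a f) = C a * rescale a (d⁄dX ℂ f) := by
  ext s
  rw [coeff_derivative, coeff_rescale, coeff_C_mul, coeff_rescale, coeff_derivative, pow_succ]
  ring

/-- the inverse of a polynomial has a positive radius of convergence -/
theorem inv_radius {P : Polynomial ℂ} {w : ℂ⟦X⟧} (h : (P : ℂ⟦X⟧) * w = 1) :
    ∃ ρ : ℝ, 0 < ρ ∧ ρ ≤ 1 ∧ Conv (rescale (ρ : ℂ) w) := by
  have hP0 : P.coeff 0 ≠ 0 := by
    intro h0
    have h1 := congrArg (coeff 0) h
    rw [c0_mul, Polynomial.coeff_coe, h0, zero_mul] at h1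
    simp at h1
  have hP0' : 0 < ‖P.coeff 0‖ := norm_pos_iff.2 hP0
  set M : ℝ := (∑ i ∈ Finset.range (P.natDegree + 1), ‖P.coeff i‖) / ‖P.coeff 0‖ with hM
  have hM0 : 0 ≤ M := by positivity
  have key : ∀ s, ‖coeff s w‖ ≤ ‖coeff 0 w‖ * (1 + M) ^ s := by
    intro s
    induction s using Nat.strong_induction_on with
    | _ s ih =>
      rcases Nat.eq_zero_or_pos s with rfl | hs
      · simp
      · have h1 := congrArg (coeff s) h
        rw [coeff_mul, Finset.Nat.sum_antidiagonal_eq_sum_range_succ_mk, Finset.sum_range_succ',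
          coeff_one, if_neg hs.ne'] at h1
        simp only [Polynomial.coeff_coe, Nat.sub_zero] at h1
        have h2 : P.coeff 0 * coeff s w =
            -∑ k ∈ Finset.range s, P.coeff (k + 1) * coeff (s - (k + 1)) w := by
          linear_combination h1
        have h3 : ‖P.coeff 0‖ * ‖coeff s w‖ ≤ ∑ k ∈ Finset.range s, ‖P.coeff (k + 1)‖ *
            (‖coeff 0 w‖ * (1 + M) ^ (s - 1)) := by
          rw [← norm_mul, h2, norm_neg]
          refine (norm_sum_le _ _).trans (Finset.sum_le_sum fun k hk => ?_)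
          rw [Finset.mem_range] at hk
          rw [norm_mul]
          refine mul_le_mul_of_nonneg_left ?_ (norm_nonneg _)
          refine (ih _ (by omega)).trans ?_
          refine mul_le_mul_of_nonneg_left ?_ (norm_nonneg _)
          exact pow_le_pow_right₀ (by linarith) (by omega)
        have h4 : ∑ k ∈ Finset.range s, ‖P.coeff (k + 1)‖ ≤ M * ‖P.coeff 0‖ := by
          rw [hM, div_mul_cancel₀ _ hP0'.ne']
          have h5 : ∑ k ∈ Finset.range s, ‖P.coeff (k + 1)‖ ≤
              ∑ k ∈ Finset.range (s + P.natDegree), ‖P.coeff (k + 1)‖ :=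
            Finset.sum_le_sum_of_subset_of_nonneg (Finset.range_mono (by omega))
              fun _ _ _ => norm_nonneg _
          have h6 : ∑ k ∈ Finset.range (s + P.natDegree), ‖P.coeff (k + 1)‖ ≤
              ∑ k ∈ Finset.range (s + P.natDegree + 1), ‖P.coeff k‖ := by
            rw [Finset.sum_range_succ' (fun k => ‖P.coeff k‖)]
            have := norm_nonneg (P.coeff 0)
            linarith
          have h7 : ∑ k ∈ Finset.range (s + P.natDegree + 1), ‖P.coeff k‖ =
              ∑ k ∈ Finset.range (P.natDegree + 1), ‖P.coeff k‖ := by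
            symm
            refine Finset.sum_subset (Finset.range_mono (by omega)) fun k _ hk => ?_
            rw [Finset.mem_range, not_lt] at hk
            rw [Polynomial.coeff_eq_zero_of_natDegree_lt (by omega), norm_zero]
          linarith
        have h8 : ‖P.coeff 0‖ * ‖coeff s w‖ ≤
            ‖P.coeff 0‖ * (‖coeff 0 w‖ * (1 + M) ^ s) := by
          refine h3.trans ?_
          rw [← Finset.sum_mul]
          have h9 : (1 + M) ^ s = (1 + M) ^ (s - 1) * (1 + M) := by
            rw [← pow_succ]; congr 1; omega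
          have h10 : 0 ≤ ‖coeff 0 w‖ * (1 + M) ^ (s - 1) := by positivity
          calc _ ≤ (M * ‖P.coeff 0‖) * (‖coeff 0 w‖ * (1 + M) ^ (s - 1)) := by gcongr
            _ ≤ ((1 + M) * ‖P.coeff 0‖) * (‖coeff 0 w‖ * (1 + M) ^ (s - 1)) := by
                gcongr; linarith
            _ = _ := by rw [h9]; ring
        exact le_of_mul_le_mul_left h8 hP0'
  refine ⟨(1 + M)⁻¹, by positivity, inv_le_one_of_one_le₀ (by linarith), ?_⟩
  intro r hr hr1
  refine Summable.of_nonneg_of_le (fun s => mul_nonneg (norm_nonneg _) (pow_nonneg hr _))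
    (fun s => ?_) ((summable_geometric_of_lt_one hr hr1).mul_left ‖coeff 0 w‖)
  refine mul_le_mul_of_nonneg_right ?_ (pow_nonneg hr _)
  have h1 : (0 : ℝ) < 1 + M := by linarith
  rw [coeff_rescale, norm_mul, norm_pow, Complex.norm_real, Real.norm_of_nonneg (by positivity)]
  have h2 := key s
  have h3 : 0 < (1 + M) ^ s := pow_pos h1 s
  rw [inv_pow, inv_mul_le_iff₀ h3]
  linarith

/-- polynomials expanded at `c` have infinite radius of convergence -/
theorem conv_rescale_sh (ρ : ℝ) (c : ℂ) (P : Polynomial ℤ) : Conv (rescale (ρ : ℂ) (sh c P)) := by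
  induction P using Polynomial.induction_on' with
  | add P Q hP hQ => rw [map_add, map_add]; exact hP.add hQ
  | monomial l a =>
    rw [← Polynomial.C_mul_X_pow_eq_monomial, map_mul, map_pow, sh_X, sh_C, map_mul, map_pow,
      map_add, rescale_C', rescale_C', rescale_X']
    exact (conv_C _).mul ((((conv_C _).mul conv_X).add (conv_C _)).pow _)

end Pool.Agent.N780
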