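import Mathlib
import Pool.Agent.N780.Fld
import Pool.Agent.N780.G.Sieg

set_option autoImplicit false

/-!
The good power series lie in one finite extension of the field of rational functions.
-/

namespace Pool.Agent.N780

open PowerSeries
open scoped RatFunc

namespace Datum

variable (E : Datum)

/-- all good power series lie in a finite extension of `ℂ(x)` -/
theorem exists_LR {ρ : ℝ} (hρ0 : 0 < ρ) (hρ1 : ρ ≤ 1) : ∃ L : IntermediateField (RatFunc ℂ) (LaurentSeries ℂ),
    FiniteDimensional (RatFunc ℂ) L ∧ ∀ f, E.GoodR ρ f → toL f ∈ L := by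
  classical
  set s : Set (LaurentSeries ℂ) := {x | ∃ f, E.GoodR ρ f ∧ x = toL f} with hs
  obtain ⟨m₀, hm₀⟩ := E.coreR hρ0 hρ1
  obtain ⟨b, hbs, hspan, hli⟩ := exists_linearIndependent (RatFunc ℂ) s
  have hfin : b.Finite := by
    by_contra hinf
    have hinf : b.Infinite := hinf
    obtain ⟨t, htb, htc⟩ := hinf.exists_subset_card_eq m₀
    set e : Fin m₀ ≃ t := (Fintype.equivFinOfCardEq (by rw [Fintype.card_coe, htc])).symm with he
    have hmem : ∀ i : Fin m₀, ∃ f, E.GoodR ρ f ∧ ((e i : t) : LaurentSeries ℂ) = toL f := fun i =>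
      hbs (htb (e i).2)
    choose g hg hge using hmem
    obtain ⟨P, hP0, hP⟩ := hm₀ m₀ le_rfl g hg
    have hli2 : LinearIndependent (RatFunc ℂ) (fun i : Fin m₀ => ((e i : t) : LaurentSeries ℂ)) :=
      hli.comp (fun i : Fin m₀ => (⟨(e i : LaurentSeries ℂ), htb (e i).2⟩ : b))
        (fun i j hij => by
          have h1 : ((e i : t) : LaurentSeries ℂ) = e j :=
            congrArg (fun z : b => (z : LaurentSeries ℂ)) hij
          exact e.injective (Subtype.ext h1))
    rw [Fintype.linearIndependent_iff] at hli2
    have h0 := hli2 (fun i => toR (P i)) (by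
      have h1 := congrArg toL hP
      rw [map_sum, map_zero] at h1
      rw [← h1]
      refine Finset.sum_congr rfl fun i _ => ?_
      rw [toR_smul, hge, map_mul])
    exact hP0 (funext fun i => toR_eq_zero (h0 i))
  -- the field
  refine ⟨IntermediateField.adjoin (RatFunc ℂ) b, ?_, ?_⟩
  · -- the span is a subalgebra
    set M : Submonoid (LaurentSeries ℂ) :=
      { carrier := s
        one_mem' := ⟨1, E.goodR_one ρ, (map_one toL).symm⟩
        mul_mem' := by
          rintro x y ⟨f, hf, rfl⟩ ⟨g, hg, rfl⟩
          exact ⟨f * g, E.goodR_mul hf hg, (map_mul toL f g).symm⟩ } with hM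
    have hadj : Subalgebra.toSubmodule (Algebra.adjoin (RatFunc ℂ) s) =
        Submodule.span (RatFunc ℂ) b := by
      rw [Algebra.adjoin_eq_span, hspan]
      congr 1
      have : (Submonoid.closure s : Set (LaurentSeries ℂ)) = s := by
        have h1 : Submonoid.closure (M : Set (LaurentSeries ℂ)) = M := Submonoid.closure_eq M
        exact congrArg (fun N : Submonoid (LaurentSeries ℂ) => (N : Set (LaurentSeries ℂ))) h1
      exact this
    have hfg : (Subalgebra.toSubmodule (Algebra.adjoin (RatFunc ℂ) s)).FG := by
      rw [hadj]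
      exact Submodule.fg_span hfin
    have hint : ∀ x ∈ b, IsIntegral (RatFunc ℂ) x := fun x hx =>
      IsIntegral.of_mem_of_fg _ hfg x (Algebra.subset_adjoin (hbs hx))
    have : Finite b := hfin
    exact IntermediateField.finiteDimensional_adjoin hint
  · intro f hf
    have h1 : toL f ∈ Submodule.span (RatFunc ℂ) b := by
      rw [hspan]
      exact Submodule.subset_span ⟨f, hf, rfl⟩
    have h2 : Submodule.span (RatFunc ℂ) b ≤
        Subalgebra.toSubmodule (IntermediateField.adjoin (RatFunc ℂ) b).toSubalgebra := by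
      rw [Submodule.span_le]
      exact IntermediateField.subset_adjoin _ _
    exact h2 h1

end Datum

end Pool.Agent.N780
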