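import Mathlib
import Pool.Agent.N780.G.Fld
import Pool.Agent.N780.G.Rad

set_option autoImplicit false

/-!
Systems `q Y' = A Y` with integer polynomials, expanded at a point `c`; no condition on the distance of `c` from
the zeros of `q`.
-/

namespace Pool.Agent.N780

open PowerSeries
open scoped RatFunc

/-- the theorem for one datum -/
theorem Datum.systemsR (E : Datum) (h : ℕ → ℕ) (hd : E.d = den h) {c : ℂ} (hc : c ∈ E.O)
    (q₁ : Polynomial ℤ) (hu : ∃ u ∈ E.O, u * coeff 0 (sh c q₁) = 1)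
    (h₁ : ∃ ψ, Conv ψ ∧ E.σ (sh c q₁) * ψ = 1) :
    ∃ L : IntermediateField (RatFunc ℂ) (LaurentSeries ℂ), FiniteDimensional (RatFunc ℂ) L ∧
      ∀ (ι : Type) [Fintype ι] [DecidableEq ι] (k : ℕ) (A : Matrix ι ι (Polynomial ℤ)),
        (∀ p : ℕ, p.Prime → Level (q₁ ^ k) A p (h p)) →
        ∀ y : ι → ℂ⟦X⟧, (∀ i, sh c (q₁ ^ k) * d⁄dX ℂ (y i) = ∑ j, sh c (A i j) * y j) →
          ∀ i, toL (y i) ∈ L := by
  obtain ⟨w, hw1, hw2⟩ := dv_inv (dv_sh hc q₁) hu
  obtain ⟨ρ, hρ0, hρ1, hwρ⟩ := inv_radius (P := shpH c q₁) (w := w) (by rw [coe_shp]; exact hw2)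
  obtain ⟨L, hL, hLm⟩ := E.exists_LR hρ0 hρ1
  refine ⟨L, hL, fun ι _ _ k A hp y hy i => ?_⟩
  obtain ⟨ψ, hψ, hψ'⟩ := h₁
  have hσw : E.σ w = ψ := by
    have h2 : E.σ (sh c q₁) * E.σ w = 1 := by rw [← map_mul, hw2, map_one]
    calc E.σ w = E.σ w * (E.σ (sh c q₁) * ψ) := by rw [hψ', mul_one]
      _ = (E.σ (sh c q₁) * E.σ w) * ψ := by ring
      _ = ψ := by rw [h2, one_mul]
  have hqw : sh c (q₁ ^ k) * w ^ k = 1 := by rw [map_pow, ← mul_pow, hw2, one_pow]
  -- the matrix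
  set G : Matrix ι ι ℂ⟦X⟧ := fun i j => w ^ k * sh c (A i j) with hG
  have hGq : ∀ i j, sh c (q₁ ^ k) * G i j = sh c (A i j) := by
    intro i j
    calc sh c (q₁ ^ k) * (w ^ k * sh c (A i j)) = (sh c (q₁ ^ k) * w ^ k) * sh c (A i j) := by ring
      _ = _ := by rw [hqw, one_mul]
  have hGv : Mv E.O 1 G := by
    intro i j
    have := (hw1.pow_one k).mul (dv_sh hc (A i j))
    rwa [mul_one] at this
  have hGp : ∀ p : ℕ, p.Prime → ∀ s ≤ p ^ h p, Mv E.O ((p ^ vf p s : ℕ) : ℂ) (gs G s) := by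
    intro p hpp s hs i j
    obtain ⟨R, hR⟩ := hp p hpp s hs i j
    have h3 := sh_der c (q₁ ^ k) A G hGq s i j
    have h4 : gs G s i j = (w ^ k) ^ s * sh c (der (q₁ ^ k) A s i j) := by
      rw [← h3, ← mul_assoc, ← mul_pow, mul_comm (w ^ k), hqw, one_pow, one_mul]
    have h5 : Dv E.O ((p ^ vf p s : ℕ) : ℂ) (sh c (der (q₁ ^ k) A s i j)) := by
      rw [hR, map_mul, map_natCast]
      have h6 : ∀ N : ℕ, Dv E.O (N : ℂ) ((N : ℕ) : ℂ⟦X⟧) := by
        intro N u
        have e : ((N : ℕ) : ℂ⟦X⟧) = C (N : ℂ) := by simp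
        rw [e, coeff_C]
        split_ifs
        · exact ⟨1, E.O.one_mem, by simp⟩
        · exact ⟨0, E.O.zero_mem, by simp⟩
      have := (h6 (p ^ vf p s)).mul (dv_sh hc R)
      rwa [mul_one] at this
    rw [h4]
    have := ((hw1.pow_one k).pow_one s).mul h5
    rwa [one_mul] at this
  -- convergence
  have hshc : ∀ P : Polynomial ℤ, Conv (E.σ (sh c P)) := by
    intro P
    induction P using Polynomial.induction_on' with
    | add P Q hP hQ => rw [map_add, map_add]; exact hP.add hQ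
    | monomial l a =>
      rw [← Polynomial.C_mul_X_pow_eq_monomial, map_mul, map_pow, sh_X, sh_C, map_mul, map_pow,
        map_add, E.σ_X, E.σ_C, E.σ_C]
      exact (conv_C _).mul ((E.hφ.add (conv_C _)).pow _)
  have hGc : ∀ i j, Conv (C (ρ : ℂ) * rescale (ρ : ℂ) (G i j)) := fun i j => by
    rw [hG]
    simp only [map_mul, map_pow]
    exact (conv_C _).mul ((hwρ.pow k).mul (conv_rescale_sh ρ c _))
  have hBc : ∀ i j, Conv (E.σ (G i j) * d⁄dX ℂ E.φ) := fun i j => by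
    rw [hG]
    simp only [map_mul, map_pow, hσw]
    exact ((hψ.pow k).mul (hshc _)).mul E.hφ.derivative
  have hgood : ∀ i j, E.GoodR ρ (fund G i j) := by
    intro i j
    refine ⟨fun s => ?_, ?_, ?_⟩
    · rw [hd]
      exact den_fund hGv hGp i j s
    · refine conv_of_ode (fun i j => C (ρ : ℂ) * rescale (ρ : ℂ) (G i j)) hGc
        (fun i => rescale (ρ : ℂ) (fund G i j)) (fun i => ?_) i
      have h7 := congrFun (congrFun (fund_ode G) i) j
      rw [mD_apply, Matrix.mul_apply] at h7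
      rw [deriv_rescale, h7, map_sum, Finset.mul_sum]
      refine Finset.sum_congr rfl fun k _ => ?_
      rw [map_mul]; ring
    · refine conv_of_ode (fun i j => E.σ (G i j) * d⁄dX ℂ E.φ) hBc
        (fun i => E.σ (fund G i j)) (fun i => ?_) i
      have h7 := congrFun (congrFun (fund_ode G) i) j
      rw [mD_apply, Matrix.mul_apply] at h7
      rw [E.σ_deriv, h7, map_sum, Finset.sum_mul]
      refine Finset.sum_congr rfl fun k _ => ?_
      rw [map_mul]; ring
  -- the solution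
  have hysol : ∀ i, d⁄dX ℂ (y i) = ∑ j, G i j * y j := by
    intro i
    calc d⁄dX ℂ (y i) = w ^ k * (sh c (q₁ ^ k) * d⁄dX ℂ (y i)) := by
          rw [← mul_assoc, mul_comm (w ^ k), hqw, one_mul]
      _ = _ := by
          rw [hy i, Finset.mul_sum]
          refine Finset.sum_congr rfl fun j _ => ?_
          rw [hG]; ring
  rw [sol_eq G y hysol i, map_sum]
  refine L.sum_mem fun j _ => toL_C_mul_mem L _ (hLm _ (hgood i j))

end Pool.Agent.N780
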