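import Mathlib
import Pool.Agent.N780.G.Sys
import Pool.Agent.N780.G.Eff

set_option autoImplicit false

/-!
Taylor series of holomorphic functions on the unit disc.
-/

namespace Pool.Agent.N780

open PowerSeries
open scoped Nat

/-- the Taylor series at `0` -/
noncomputable def tay (f : ℂ → ℂ) : ℂ⟦X⟧ := mk fun n => (n ! : ℂ)⁻¹ * iteratedDeriv n f 0

theorem coeff_tay (f : ℂ → ℂ) (n : ℕ) : coeff n (tay f) = (n ! : ℂ)⁻¹ * iteratedDeriv n f 0 := by
  rw [tay, coeff_mk]

theorem conv_tay {f : ℂ → ℂ} (hf : DifferentiableOn ℂ f (Metric.ball 0 1)) : Conv (tay f) := by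
  intro r hr hr1
  have hz : (r : ℂ) ∈ Metric.ball (0 : ℂ) 1 := by
    rw [mem_ball_zero_iff, Complex.norm_real, Real.norm_of_nonneg hr]; exact hr1
  have h := (Complex.hasSum_taylorSeries_on_ball hf hz).summable.norm
  refine h.congr fun n => ?_
  rw [coeff_tay, sub_zero, smul_eq_mul, smul_eq_mul, norm_mul, norm_mul, norm_mul, norm_pow,
    Complex.norm_real, Real.norm_of_nonneg hr]
  ring

theorem analyticAt_ball {f : ℂ → ℂ} (hf : DifferentiableOn ℂ f (Metric.ball 0 1)) :
    AnalyticAt ℂ f 0 :=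
  hf.analyticAt (Metric.ball_mem_nhds _ one_pos)

theorem tay_mul {f g : ℂ → ℂ} (hf : AnalyticAt ℂ f 0) (hg : AnalyticAt ℂ g 0) :
    tay (f * g) = tay f * tay g := by
  ext n
  rw [coeff_tay, iteratedDeriv_mul hf.contDiffAt hg.contDiffAt, coeff_mul,
    Finset.Nat.sum_antidiagonal_eq_sum_range_succ_mk, Finset.mul_sum]
  refine Finset.sum_congr rfl fun i hi => ?_
  have hi' : i ≤ n := Nat.lt_succ_iff.1 (Finset.mem_range.1 hi)
  rw [coeff_tay, coeff_tay]
  have h1 : ((n.choose i : ℕ) : ℂ) * (i ! : ℂ) * ((n - i) ! : ℂ) = (n ! : ℂ) := by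
    exact_mod_cast Nat.choose_mul_factorial_mul_factorial hi'
  have h2 : (n ! : ℂ) ≠ 0 := by exact_mod_cast Nat.factorial_ne_zero n
  have h3 : (i ! : ℂ) ≠ 0 := by exact_mod_cast Nat.factorial_ne_zero i
  have h4 : ((n - i) ! : ℂ) ≠ 0 := by exact_mod_cast Nat.factorial_ne_zero _
  field_simp
  rw [← h1]; ring

theorem tay_add {f g : ℂ → ℂ} (hf : AnalyticAt ℂ f 0) (hg : AnalyticAt ℂ g 0) :
    tay (f + g) = tay f + tay g := by
  ext n
  rw [coeff_tay, iteratedDeriv_add hf.contDiffAt hg.contDiffAt, map_add, coeff_tay, coeff_tay]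
  ring

theorem tay_const (a : ℂ) : tay (fun _ => a) = C a := by
  ext n
  rw [coeff_tay, coeff_C, iteratedDeriv_const]
  rcases Nat.eq_zero_or_pos n with h | h
  · subst h; simp
  · simp [h.ne']

theorem tay_congr {f g : ℂ → ℂ} (h : f =ᶠ[nhds 0] g) : tay f = tay g := by
  ext n
  rw [coeff_tay, coeff_tay, h.iteratedDeriv_eq n]

theorem tay_poly {f : ℂ → ℂ} (hf : AnalyticAt ℂ f 0) (q : Polynomial ℤ) :
    AnalyticAt ℂ (fun z => Polynomial.aeval (f z) q) 0 ∧
    tay (fun z => Polynomial.aeval (f z) q) =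
      Polynomial.eval₂ (Int.castRingHom ℂ⟦X⟧) (tay f) q := by
  induction q using Polynomial.induction_on' with
  | add P Q hP hQ =>
    simp only [map_add, Polynomial.eval₂_add]
    refine ⟨hP.1.add hQ.1, ?_⟩
    rw [← hP.2, ← hQ.2]
    exact tay_add hP.1 hQ.1
  | monomial k a =>
    have hpow : ∀ k : ℕ, AnalyticAt ℂ (fun z => f z ^ k) 0 ∧ tay (fun z => f z ^ k) = tay f ^ k := by
      intro k
      induction k with
      | zero =>
        simp only [pow_zero]
        refine ⟨analyticAt_const, ?_⟩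
        rw [tay_const, map_one]
      | succ k ih =>
        simp only [pow_succ]
        refine ⟨ih.1.mul hf, ?_⟩
        rw [← ih.2]
        exact tay_mul ih.1 hf
    simp only [Polynomial.aeval_monomial, Polynomial.eval₂_monomial]
    refine ⟨analyticAt_const.mul (hpow k).1, ?_⟩
    have e : (algebraMap ℤ ℂ) a = (a : ℂ) := rfl
    rw [e]
    have h1 := tay_mul (f := fun _ => (a : ℂ)) (analyticAt_const) (hpow k).1
    refine Eq.trans h1 ?_
    rw [tay_const, (hpow k).2]
    congr 1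
    simp

/-- the bridge -/
theorem exists_series {f : ℂ → ℂ} (hf : DifferentiableOn ℂ f (Metric.ball 0 1)) {q : Polynomial ℤ}
    (hq : ∀ z ∈ Metric.ball (0 : ℂ) 1, Polynomial.aeval (f z) q ≠ 0) :
    ∃ F ψ : ℂ⟦X⟧, Conv F ∧ Conv ψ ∧ coeff 0 F = 0 ∧ coeff 1 F = deriv f 0 ∧
      Polynomial.eval₂ (Int.castRingHom ℂ⟦X⟧) (F + C (f 0)) q * ψ = 1 := by
  have ha := analyticAt_ball hf
  have hqd : DifferentiableOn ℂ (fun z => Polynomial.aeval (f z) q) (Metric.ball 0 1) := by
    have h1 : ∀ Q : Polynomial ℤ,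
        DifferentiableOn ℂ (fun z => Polynomial.aeval (f z) Q) (Metric.ball 0 1) := by
      intro Q
      induction Q using Polynomial.induction_on' with
      | add P Q hP hQ => simp only [map_add]; exact hP.add hQ
      | monomial k a =>
        simp only [Polynomial.aeval_monomial]
        exact (hf.pow k).const_mul _
    exact h1 q
  have hinv : DifferentiableOn ℂ (fun z => (Polynomial.aeval (f z) q)⁻¹) (Metric.ball 0 1) :=
    hqd.inv hq
  refine ⟨tay f - C (f 0), tay fun z => (Polynomial.aeval (f z) q)⁻¹, ?_, conv_tay hinv, ?_, ?_, ?_⟩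
  · exact (conv_tay hf).sub (conv_C _)
  · rw [map_sub, coeff_tay, coeff_zero_C, iteratedDeriv_zero]; simp
  · rw [map_sub, coeff_tay, coeff_C, if_neg one_ne_zero, iteratedDeriv_one]; simp
  · rw [sub_add_cancel, ← (tay_poly ha q).2, ← tay_mul (tay_poly ha q).1 (analyticAt_ball hinv)]
    rw [← map_one C, ← tay_const]
    refine tay_congr ?_
    filter_upwards [Metric.ball_mem_nhds (0 : ℂ) one_pos] with z hz
    exact mul_inv_cancel₀ (hq z hz)

end Pool.Agent.N780
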