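import Mathlib
import Pool.Agent.N780.G.Taylor

set_option autoImplicit false

/-!
Convergent power series as holomorphic functions on the unit disc.
-/

namespace Pool.Agent.N780

open PowerSeries
open scoped Nat ENNReal NNReal

/-- the sum of a power series -/
theorem exists_fun {F : ℂ⟦X⟧} (hF : Conv F) :
    ∃ f : ℂ → ℂ, DifferentiableOn ℂ f (Metric.ball 0 1) ∧ tay f = F := by
  set p : FormalMultilinearSeries ℂ ℂ ℂ := FormalMultilinearSeries.ofScalars ℂ fun n => coeff n F
    with hp
  have hr : (1 : ℝ≥0∞) ≤ p.radius := by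
    refine le_of_forall_lt fun r hr => ?_
    lift r to ℝ≥0 using (lt_top_of_lt hr).ne
    have hr1 : (r : ℝ) < 1 := by exact_mod_cast hr
    obtain ⟨r', h1, h2⟩ := exists_between hr1
    have hr0 : 0 ≤ r' := r.2.trans h1.le
    lift r' to ℝ≥0 using hr0
    refine lt_of_lt_of_le (b := (r' : ℝ≥0∞)) (by exact_mod_cast h1) ?_
    refine p.le_radius_of_summable_norm ?_
    refine (hF r' r'.2 h2).congr fun n => ?_
    rw [hp, FormalMultilinearSeries.ofScalars_norm]
  have hball : HasFPowerSeriesOnBall p.sum p 0 p.radius :=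
    p.hasFPowerSeriesOnBall (lt_of_lt_of_le zero_lt_one hr)
  refine ⟨p.sum, ?_, ?_⟩
  · refine hball.differentiableOn.mono ?_
    intro z hz
    have h1 : z ∈ Metric.eball (0 : ℂ) 1 := by
      rw [Metric.mem_eball, edist_zero_right]
      rw [mem_ball_zero_iff] at hz
      rw [← ofReal_norm]
      exact ENNReal.ofReal_lt_one.2 hz
    exact Metric.eball_subset_eball hr h1
  · have h1 : HasFPowerSeriesAt p.sum p 0 := hball.hasFPowerSeriesAt
    have h2 := h1.analyticAt.hasFPowerSeriesAt
    have h3 := h1.eq_formalMultilinearSeries h2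
    rw [hp] at h3
    have h4 := FormalMultilinearSeries.ofScalars_series_injective (𝕜 := ℂ) (E := ℂ) h3
    ext n
    rw [coeff_tay]
    have h5 := congrFun h4 n
    rw [h5, ← hp]
    ring

/-- the Taylor series determines the function -/
theorem eq_of_tay {f g : ℂ → ℂ} (hf : DifferentiableOn ℂ f (Metric.ball 0 1))
    (hg : DifferentiableOn ℂ g (Metric.ball 0 1)) (h : tay f = tay g) {z : ℂ}
    (hz : z ∈ Metric.ball (0 : ℂ) 1) : f z = g z := by
  rw [← Complex.taylorSeries_eq_on_ball hf hz, ← Complex.taylorSeries_eq_on_ball hg hz]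
  refine tsum_congr fun n => ?_
  have h1 := congrArg (coeff n) h
  rw [coeff_tay, coeff_tay] at h1
  have h2 : (n ! : ℂ) ≠ 0 := by exact_mod_cast Nat.factorial_ne_zero n
  rw [mul_right_inj' (inv_ne_zero h2)] at h1
  rw [h1]

theorem differentiableOn_aeval {f : ℂ → ℂ} (hf : DifferentiableOn ℂ f (Metric.ball 0 1))
    (q : Polynomial ℤ) : DifferentiableOn ℂ (fun z => Polynomial.aeval (f z) q) (Metric.ball 0 1) := by
  induction q using Polynomial.induction_on' with
  | add P Q hP hQ => simp only [map_add]; exact hP.add hQ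
  | monomial k a =>
    simp only [Polynomial.aeval_monomial]
    exact (hf.pow k).const_mul _

/-- from power series to functions -/
theorem exists_map {F ψ : ℂ⟦X⟧} (hF : Conv F) (hψ : Conv ψ) {q : Polynomial ℤ} {c : ℂ}
    (hF0 : coeff 0 F = 0) (h : Polynomial.eval₂ (Int.castRingHom ℂ⟦X⟧) (F + C c) q * ψ = 1) :
    ∃ f : ℂ → ℂ, DifferentiableOn ℂ f (Metric.ball 0 1) ∧ f 0 = c ∧
      (∀ z ∈ Metric.ball (0 : ℂ) 1, Polynomial.aeval (f z) q ≠ 0) ∧ deriv f 0 = coeff 1 F := by
  obtain ⟨f, hf, hfF⟩ := exists_fun (hF.add (conv_C c))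
  obtain ⟨g, hg, hgψ⟩ := exists_fun hψ
  refine ⟨f, hf, ?_, ?_, ?_⟩
  · have h1 := congrArg (coeff 0) hfF
    rw [coeff_tay, map_add, hF0, coeff_zero_C, iteratedDeriv_zero] at h1
    simpa using h1
  · intro z hz h0
    have h1 : tay ((fun z => Polynomial.aeval (f z) q) * g) = tay fun _ => (1 : ℂ) := by
      rw [tay_mul (tay_poly (analyticAt_ball hf) q).1 (analyticAt_ball hg),
        (tay_poly (analyticAt_ball hf) q).2, hfF, hgψ, tay_const, map_one]
      exact h
    have h2 := eq_of_tay ((differentiableOn_aeval hf q).mul hg) (differentiableOn_const 1) h1 hz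
    rw [Pi.mul_apply, h0, zero_mul] at h2
    exact zero_ne_one h2
  · have h1 := congrArg (coeff 1) hfF
    rw [coeff_tay, map_add, coeff_C, if_neg one_ne_zero, iteratedDeriv_one] at h1
    simpa using h1

end Pool.Agent.N780
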