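import Mathlib
import Pool.Agent.N780.Eis

set_option autoImplicit false

/-!
Discrete subrings of the complex numbers which contain a given rational integer or imaginary quadratic integer.
-/

namespace Pool.Agent.N780

open PowerSeries

/-- a discrete subring with coordinates -/
structure Ord where
  O : Subring ℂ
  hO : ∀ a ∈ O, a ≠ 0 → 1 ≤ ‖a‖
  co : Fin 2 → O →+ ℤ
  Cc : ℝ
  hCc : 0 ≤ Cc
  hco : ∀ l a, |((co l a : ℤ) : ℝ)| ≤ Cc * ‖(a : ℂ)‖
  hco0 : ∀ a, (∀ l, co l a = 0) → a = 0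

/-- the Eisenstein integers -/
noncomputable def eisOrd : Ord where
  O := Eis
  hO := fun _ ha h0 => eis_norm ha h0
  co := eco
  Cc := 2
  hCc := by norm_num
  hco := eco_bound
  hco0 := eco_zero

section

variable {c : ℂ} {s t : ℤ} (hi : c.im ≠ 0) (hc : c ^ 2 = s * c + t)

/-- the ring `ℤ + ℤ c` -/
def quad (c : ℂ) (s t : ℤ) (hc : c ^ 2 = s * c + t) : Subring ℂ where
  carrier := {z | ∃ a b : ℤ, z = a + b * c}
  mul_mem' := by
    rintro x y ⟨a, b, rfl⟩ ⟨a', b', rfl⟩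
    refine ⟨a * a' + b * b' * t, a * b' + b * a' + b * b' * s, ?_⟩
    push_cast
    linear_combination (b : ℂ) * b' * hc
  one_mem' := ⟨1, 0, by simp⟩
  add_mem' := by
    rintro x y ⟨a, b, rfl⟩ ⟨a', b', rfl⟩
    exact ⟨a + a', b + b', by push_cast; ring⟩
  zero_mem' := ⟨0, 0, by simp⟩
  neg_mem' := by
    rintro x ⟨a, b, rfl⟩
    exact ⟨-a, -b, by push_cast; ring⟩

theorem qd_re (a b : ℤ) : ((a : ℂ) + b * c).re = a + b * c.re := by simp

theorem qd_im (a b : ℤ) : ((a : ℂ) + b * c).im = b * c.im := by simp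

include hi in
theorem qd_unique {a b a' b' : ℤ} (h : (a : ℂ) + b * c = a' + b' * c) : a = a' ∧ b = b' := by
  have h1 := congrArg Complex.im h
  rw [qd_im, qd_im] at h1
  have h2 : (b : ℝ) = b' := mul_right_cancel₀ hi h1
  have h4 := congrArg Complex.re h
  rw [qd_re, qd_re, h2] at h4
  have h5 : (a : ℝ) = a' := by linarith
  exact ⟨by exact_mod_cast h5, by exact_mod_cast h2⟩

include hi hc in
theorem qd_normSq (a b : ℤ) :
    Complex.normSq ((a : ℂ) + b * c) = ((a ^ 2 + a * b * s - b ^ 2 * t : ℤ) : ℝ) := by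
  have h1 := congrArg Complex.im hc
  have h2 := congrArg Complex.re hc
  rw [pow_two, Complex.mul_im, Complex.add_im, Complex.mul_im] at h1
  rw [pow_two, Complex.mul_re, Complex.add_re, Complex.mul_re] at h2
  simp only [Complex.intCast_im, Complex.intCast_re, zero_mul, add_zero, sub_zero] at h1 h2
  have h3 : (s : ℝ) = 2 * c.re := by
    have h4 : ((s : ℝ) - 2 * c.re) * c.im = 0 := by linear_combination -h1
    rcases mul_eq_zero.1 h4 with h | h
    · linarith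
    · exact absurd h hi
  rw [h3] at h2
  rw [Complex.normSq_apply, qd_re, qd_im]
  push_cast
  rw [h3]
  have h5 : (t : ℝ) = -(c.re * c.re + c.im * c.im) := by linear_combination -h2
  rw [h5]
  ring

include hi in
theorem qd_norm {z : ℂ} (hz : z ∈ quad c s t hc) (h0 : z ≠ 0) : 1 ≤ ‖z‖ := by
  obtain ⟨a, b, rfl⟩ := hz
  have h1 : 0 < Complex.normSq ((a : ℂ) + b * c) := Complex.normSq_pos.2 h0
  rw [qd_normSq hi hc] at h1
  have h2 : 0 < a ^ 2 + a * b * s - b ^ 2 * t := by exact_mod_cast h1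
  have h3 : (1 : ℝ) ≤ ((a ^ 2 + a * b * s - b ^ 2 * t : ℤ) : ℝ) := by exact_mod_cast h2
  rw [← qd_normSq hi hc, Complex.normSq_eq_norm_sq] at h3
  have h4 := norm_nonneg ((a : ℂ) + b * c)
  nlinarith

/-- the coordinates -/
noncomputable def qco (l : Fin 2) : quad c s t hc →+ ℤ :=
  AddMonoidHom.mk' (fun z => if l = 0 then z.2.choose else z.2.choose_spec.choose) (by
    intro x y
    have hx := x.2.choose_spec.choose_spec
    have hy := y.2.choose_spec.choose_spec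
    have hxy := (x + y).2.choose_spec.choose_spec
    have hcc : ((x + y : quad c s t hc) : ℂ) = x + y := rfl
    have h1 : ((x.2.choose + y.2.choose : ℤ) : ℂ) +
        ((x.2.choose_spec.choose + y.2.choose_spec.choose : ℤ) : ℂ) * c =
        ((x + y).2.choose : ℂ) + ((x + y).2.choose_spec.choose : ℂ) * c := by
      push_cast
      linear_combination hxy - hcc - hx - hy
    obtain ⟨h2, h3⟩ := qd_unique hi h1
    split_ifs
    · exact h2.symm
    · exact h3.symm)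

theorem qco_spec (z : quad c s t hc) : (z : ℂ) = (qco hi hc 0 z : ℂ) + (qco hi hc 1 z : ℂ) * c :=
  z.2.choose_spec.choose_spec

theorem qco_bound (l : Fin 2) (z : quad c s t hc) :
    |((qco hi hc l z : ℤ) : ℝ)| ≤ (1 + (1 + |c.re|) / |c.im|) * ‖(z : ℂ)‖ := by
  have h0 := qco_spec hi hc z
  have hre : (z : ℂ).re = (qco hi hc 0 z : ℝ) + (qco hi hc 1 z : ℝ) * c.re := by
    conv_lhs => rw [h0]
    exact qd_re _ _
  have him : (z : ℂ).im = (qco hi hc 1 z : ℝ) * c.im := by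
    conv_lhs => rw [h0]
    exact qd_im _ _
  have h1 := Complex.abs_re_le_norm (z : ℂ)
  have h2 := Complex.abs_im_le_norm (z : ℂ)
  have hi0 : 0 < |c.im| := abs_pos.2 hi
  have hn := norm_nonneg (z : ℂ)
  have hb : |((qco hi hc 1 z : ℤ) : ℝ)| ≤ ‖(z : ℂ)‖ / |c.im| := by
    rw [le_div_iff₀ hi0, ← abs_mul, ← him]
    exact h2
  have e1 : (1 + (1 + |c.re|) / |c.im|) * ‖(z : ℂ)‖ =
      ‖(z : ℂ)‖ + ‖(z : ℂ)‖ / |c.im| + ‖(z : ℂ)‖ / |c.im| * |c.re| := by ring
  have hd : 0 ≤ ‖(z : ℂ)‖ / |c.im| := by positivity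
  have hd2 : 0 ≤ ‖(z : ℂ)‖ / |c.im| * |c.re| := by positivity
  have ha : |((qco hi hc 0 z : ℤ) : ℝ)| ≤ ‖(z : ℂ)‖ + ‖(z : ℂ)‖ / |c.im| * |c.re| := by
    have e : ((qco hi hc 0 z : ℤ) : ℝ) = (z : ℂ).re - (qco hi hc 1 z : ℝ) * c.re := by
      rw [hre]; ring
    rw [e]
    refine (abs_sub _ _).trans ?_
    rw [abs_mul]
    gcongr
  rw [e1]
  fin_cases l
  · change |((qco hi hc 0 z : ℤ) : ℝ)| ≤ _
    linarith
  · change |((qco hi hc 1 z : ℤ) : ℝ)| ≤ _
    linarith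

theorem qco_zero (z : quad c s t hc) (h : ∀ l, qco hi hc l z = 0) : z = 0 := by
  apply Subtype.ext
  rw [qco_spec hi hc z, h 0, h 1]
  simp

/-- the order `ℤ + ℤ c` -/
noncomputable def quadOrd : Ord where
  O := quad c s t hc
  hO := fun _ ha h0 => qd_norm hi hc ha h0
  co := qco hi hc
  Cc := 1 + (1 + |c.re|) / |c.im|
  hCc := by positivity
  hco := qco_bound hi hc
  hco0 := qco_zero hi hc

end

/-- the datum of a map `φ` -/
noncomputable def ordDatum (o : Ord) (h : ℕ → ℕ) (hs : Summable fun p : Nat.Primes => wt h p)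
    (φ : ℂ⟦X⟧) (hφ : Conv φ) (hφ0 : constantCoeff φ = 0)
    (hφ1 : Real.exp (∑' p : Nat.Primes, wt h p) < ‖coeff 1 φ‖) : Datum where
  O := o.O
  hO := o.hO
  co := o.co
  Cc := o.Cc
  hCc := o.hCc
  hco := o.hco
  hco0 := o.hco0
  d := den h
  hd0 := den_ne_zero h
  hdm := den_mul h
  T := ∑' p : Nat.Primes, wt h p
  hT := tsum_nonneg fun p => wt_nonneg h p.2
  hdT := den_le h fun F hF => sum_le_tsum (fun _ hp => wt_nonneg h hp) hs F hF
  φ := φ
  hφ := hφ
  hφ0 := hφ0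
  hφ1 := hφ1

/-- `c` is a rational integer or an integer of an imaginary quadratic field -/
theorem exists_ord {c : ℂ} (hc : (∃ a : ℤ, c = a) ∨ (c.im ≠ 0 ∧ ∃ s t : ℤ, c ^ 2 = s * c + t)) :
    ∃ o : Ord, c ∈ o.O := by
  rcases hc with ⟨a, rfl⟩ | ⟨hi, s, t, hc⟩
  · exact ⟨eisOrd, ⟨a, 0, by simp⟩⟩
  · exact ⟨quadOrd hi hc, ⟨0, 1, by simp⟩⟩

end Pool.Agent.N780
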