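import Mathlib
import Pool.Agent.N780.DefsE
import Pool.Agent.N780.FinalE
import Pool.Agent.N780.G.Defs
import Pool.Agent.N780.G.Fun
import Pool.Agent.N780.G.Quad

set_option autoImplicit false

/-!
The criterion.
-/

namespace Pool.Agent.N780

open PowerSeries
open scoped RatFunc

theorem sh_eq_eval₂ (c : ℂ) (q : Polynomial ℤ) :
    sh c q = Polynomial.eval₂ (Int.castRingHom ℂ⟦X⟧) (X + C c) q := rfl

theorem coeff_zero_sh (c : ℂ) (q : Polynomial ℤ) : coeff 0 (sh c q) = Polynomial.aeval c q := by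
  induction q using Polynomial.induction_on' with
  | add P Q hP hQ => rw [map_add, map_add, map_add, hP, hQ]
  | monomial k a =>
    rw [← Polynomial.C_mul_X_pow_eq_monomial, map_mul, map_pow, sh_X, sh_C, c0_mul, c0_pow, map_add,
      coeff_zero_X, coeff_zero_C, coeff_zero_C, zero_add, map_mul, map_pow, Polynomial.aeval_X,
      Polynomial.aeval_C]
    rfl

theorem σ_sh (E : Datum) (c : ℂ) (q : Polynomial ℤ) :
    E.σ (sh c q) = Polynomial.eval₂ (Int.castRingHom ℂ⟦X⟧) (E.φ + C c) q := by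
  rw [sh_eq_eval₂]
  have h1 := Polynomial.hom_eval₂ q (Int.castRingHom ℂ⟦X⟧) (E.σ : ℂ⟦X⟧ →+* ℂ⟦X⟧) (X + C c)
  have h2 : (E.σ : ℂ⟦X⟧ →+* ℂ⟦X⟧) (X + C c) = E.φ + C c := by
    rw [map_add]
    exact congrArg₂ (· + ·) E.σ_X (E.σ_C c)
  rw [h2] at h1
  refine Eq.trans h1 ?_
  congr 1
  exact RingHom.ext_int _ _

theorem adjoin_le {O : Subring ℂ} {c : ℂ} (hc : c ∈ O) {u : ℂ} (hu : u ∈ Algebra.adjoin ℤ {c}) :
    u ∈ O := by
  have h1 : Algebra.adjoin ℤ {c} ≤ subalgebraOfSubring O := by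
    refine Algebra.adjoin_le ?_
    intro x hx
    rw [Set.mem_singleton_iff.1 hx]
    exact hc
  exact h1 hu

/-- **the criterion** -/
theorem crit {c : ℂ} {q : Polynomial ℤ} (hb : PCurv.IsBasePoint c q) (h : ℕ → ℕ)
    (hs : Summable fun p : Nat.Primes => wt h p)
    (hd : PCurv.HasDisc c q (Real.exp (∑' p : Nat.Primes, wt h p))) :
    PCurv.UniformlyAlgebraic c q h ∧ PCurv.EffectivelyAlgebraic c q h := by
  obtain ⟨hc, u, hu, huq⟩ := hb
  obtain ⟨o, ho⟩ := exists_ord hc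
  obtain ⟨φ, hφ, hφ0, hφq, hφr⟩ := hd
  obtain ⟨F, ψ, hF, hψ, hF0, hF1, hFψ⟩ := exists_series hφ hφq
  rw [hφ0] at hFψ
  rw [← hF1] at hφr
  have hu' : ∃ u ∈ o.O, u * coeff 0 (sh c q) = 1 := ⟨u, adjoin_le ho hu, by rw [coeff_zero_sh]; exact huq⟩
  set E := ordDatum o h hs F hF (by rwa [← coeff_zero_eq_constantCoeff_apply]) hφr with hE
  have h1 : ∃ ψ, Conv ψ ∧ E.σ (sh c q) * ψ = 1 := ⟨ψ, hψ, by rw [σ_sh]; exact hFψ⟩
  exact ⟨uniform_of c q h (E.systemsR h rfl ho q hu' h1),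
    effective_of (E.effectiveR h rfl ho q hu' h1)⟩

theorem hasDisc_mono {c : ℂ} {q : Polynomial ℤ} {r s : ℝ} (hrs : r ≤ s) (h : PCurv.HasDisc c q s) :
    PCurv.HasDisc c q r := by
  obtain ⟨φ, h1, h2, h3, h4⟩ := h
  exact ⟨φ, h1, h2, h3, lt_of_le_of_lt hrs h4⟩

theorem hasDisc_gt {c : ℂ} {q : Polynomial ℤ} {r : ℝ} (h : PCurv.HasDisc c q r) :
    ∃ s, r < s ∧ PCurv.HasDisc c q s := by
  obtain ⟨φ, h1, h2, h3, h4⟩ := h
  obtain ⟨s, h5, h6⟩ := exists_between h4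
  exact ⟨s, h5, φ, h1, h2, h3, h6⟩

/-- thin exceptional sets -/
theorem crit_thin {c : ℂ} {q : Polynomial ℤ} (hb : PCurv.IsBasePoint c q) (S : Set ℕ)
    (hS : Summable fun p : Nat.Primes => S.indicator (fun p : ℕ => Real.log p / p) p)
    (hd : PCurv.HasDisc c q
      (Real.exp (0.76 + ∑' p : Nat.Primes, S.indicator (fun p : ℕ => Real.log p / p) p))) :
    PCurv.UniformlyAlgebraic c q (PCurv.outside S) ∧
      PCurv.EffectivelyAlgebraic c q (PCurv.outside S) := by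
  refine crit hb _ (lvS_summable hS) (hasDisc_mono ?_ hd)
  refine Real.exp_le_exp.2 ((lvS_tsum hS).trans ?_)
  have h1 : Real.log 2 < 0.6931471808 := Real.log_two_lt_d9
  nlinarith

/-- level `N` at the primes up to `N` -/
theorem crit_upTo {c : ℂ} {q : Polynomial ℤ} (hb : PCurv.IsBasePoint c q)
    (hd : PCurv.HasDisc c q 1) :
    ∃ N : ℕ, PCurv.UniformlyAlgebraic c q (PCurv.upTo N) ∧
      PCurv.EffectivelyAlgebraic c q (PCurv.upTo N) := by
  obtain ⟨s, hs1, hs⟩ := hasDisc_gt hd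
  have hpos : 0 < Real.log s := Real.log_pos hs1
  have h := tendsto_upTo.eventually_lt_const hpos
  obtain ⟨N, hN, hN1⟩ := (h.and (Filter.eventually_ne_atTop 0)).exists
  refine ⟨N, crit hb _ (upTo_summable hN1) (hasDisc_mono ?_ hs)⟩
  rw [← Real.le_log_iff_exp_le (by linarith)]
  exact hN.le

end Pool.Agent.N780
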