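import Mathlib
import Pool.Agent.N780.G.Crit
import Pool.Agent.N780.Three

set_option autoImplicit false

/-!
Examples for the criterion.
-/

namespace Pool.Agent.N780

open PowerSeries

/-- the complement of the roots of `1 = a x^m` -/
theorem disc_roots {m : ℕ} (hm : m ≠ 0) {a : ℤ} (ha : a ≠ 0) {r : ℝ} (hr0 : 0 ≤ r)
    (hr : |(a : ℝ)| * r ^ m < 16) :
    PCurv.HasDisc 0 (1 - Polynomial.C a * Polynomial.X ^ m) r := by
  have hm0 : (0 : ℝ) < m := by exact_mod_cast Nat.pos_of_ne_zero hm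
  have haC : (a : ℂ) ≠ 0 := by exact_mod_cast ha
  obtain ⟨b, hb⟩ := IsAlgClosed.exists_pow_nat_eq ((a : ℂ)⁻¹) (Nat.pos_of_ne_zero hm)
  have hb0 : b ≠ 0 := by
    rintro rfl
    rw [zero_pow hm] at hb
    exact inv_ne_zero haC hb.symm
  have hbn : 0 < ‖b‖ := norm_pos_iff.2 hb0
  have hbm : ‖b‖ ^ m * |(a : ℝ)| = 1 := by
    rw [← norm_pow, hb, norm_inv, Complex.norm_intCast]
    exact inv_mul_cancel₀ (by simpa using ha)
  have key : ∃ η : ℝ, η < Real.log 16 / m ∧ r ≤ ‖b‖ * Real.exp η := by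
    rcases hr0.eq_or_lt with h | h
    · exact ⟨Real.log 16 / m - 1, by linarith, by rw [← h]; positivity⟩
    · refine ⟨Real.log (r / ‖b‖), ?_, ?_⟩
      · rw [lt_div_iff₀ hm0, mul_comm, ← Real.log_pow]
        refine Real.log_lt_log (by positivity) ?_
        rw [div_pow, div_lt_iff₀ (by positivity)]
        have h1 : r ^ m = (|(a : ℝ)| * r ^ m) * ‖b‖ ^ m := by
          calc r ^ m = r ^ m * (‖b‖ ^ m * |(a : ℝ)|) := by rw [hbm, mul_one]
            _ = _ := by ring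
        rw [h1]
        have h2 : 0 < ‖b‖ ^ m := by positivity
        exact mul_lt_mul_of_pos_right hr h2
      · rw [Real.exp_log (by positivity)]
        exact (mul_div_cancel₀ r hbn.ne').ge
  obtain ⟨η, hη, hrη⟩ := key
  obtain ⟨F, ψ, hF, hF0, hF1, hψ, hFψ⟩ := exists_F hm hη
  have hC : (C b : ℂ⟦X⟧) ^ m * C (a : ℂ) = 1 := by
    rw [← map_pow, ← map_mul, hb, inv_mul_cancel₀ haC, map_one]
  obtain ⟨f, h1, h2, h3, h4⟩ := exists_map (F := C b * F) (ψ := ψ)
    (q := 1 - Polynomial.C a * Polynomial.X ^ m) (c := 0) ((conv_C b).mul hF) hψ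
    (by rw [coeff_C_mul, hF0, mul_zero]) (by
      rw [map_zero, add_zero, Polynomial.eval₂_sub, Polynomial.eval₂_one, Polynomial.eval₂_mul,
        Polynomial.eval₂_C, Polynomial.eval₂_X_pow]
      have e : (Int.castRingHom ℂ⟦X⟧) a = C (a : ℂ) := by simp
      rw [e, mul_pow]
      linear_combination (-(F ^ m) * ψ) * hC + hFψ)
  refine ⟨f, h1, h2, h3, ?_⟩
  rw [h4, coeff_C_mul, norm_mul]
  calc r ≤ ‖b‖ * Real.exp η := hrη
    _ < ‖b‖ * ‖coeff 1 F‖ := by gcongr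

theorem base_roots {m : ℕ} (hm : m ≠ 0) (a : ℤ) :
    PCurv.IsBasePoint 0 (1 - Polynomial.C a * Polynomial.X ^ m) := by
  refine ⟨Or.inl ⟨0, by simp⟩, 1, Subalgebra.one_mem _, ?_⟩
  simp [hm]

theorem om_eq : (⟨1 / 2, -(Real.sqrt 3 / 2)⟩ : ℂ) = -om := by
  apply Complex.ext
  · simp only [om, Complex.neg_re]; norm_num
  · simp only [om, Complex.neg_im]

/-- the projective line without `0, 1, ∞` -/
theorem disc_three {r : ℝ} (hr0 : 0 < r) (hr : r < Real.sqrt 3 * Real.exp (Real.log 16 / 3)) :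
    PCurv.HasDisc (-om) (Polynomial.X * (1 - Polynomial.X)) r := by
  set T := Real.log r with hT
  have hrT : r = Real.exp T := by rw [hT, Real.exp_log hr0]
  have h3 : Real.sqrt 3 = Real.exp (Real.log 3 / 2) := by
    rw [Real.sqrt_eq_rpow, Real.rpow_def_of_pos (by norm_num)]
    congr 1; ring
  have hη : T - Real.log 3 / 2 < Real.log 16 / (3 : ℕ) := by
    rw [h3, ← Real.exp_add, hrT, Real.exp_lt_exp] at hr
    push_cast; linarith
  obtain ⟨F, ψ, hF, hF0, hF1, hψ, hFψ⟩ := exists_F (by norm_num : (3 : ℕ) ≠ 0) hη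
  set w : ℂ⟦X⟧ := C om with hw
  have hwc : Conv w := conv_C om
  have hw2 : w ^ 2 + w + 1 = 0 := by
    have := congrArg (C : ℂ → ℂ⟦X⟧) om_sq
    rw [map_add, map_add, map_pow, map_one, map_zero] at this
    exact this
  have hw3 : w ^ 3 = 1 := by linear_combination (w - 1) * hw2
  -- the map
  set φ : ℂ⟦X⟧ := (w ^ 2 - w) * (F * ((1 + F + F ^ 2) * ψ)) with hφd
  have h1F : Conv ((1 + F + F ^ 2) * ψ) := ((conv_one.add hF).add (hF.pow 2)).mul hψ
  have hφ : Conv φ := ((hwc.pow 2).sub hwc).mul (hF.mul h1F)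
  have hφF : φ * (1 - F) = (w ^ 2 - w) * F := by
    rw [hφd]; linear_combination ((w ^ 2 - w) * F) * hFψ
  have hφ0 : coeff 0 φ = 0 := by
    rw [hφd, c0_mul, c0_mul, hF0, zero_mul, mul_zero]
  have hψ0 : coeff 0 ψ = 1 := by
    have h5 := congrArg (coeff 0) hFψ
    rw [c0_mul, map_sub, c0_pow, hF0, c0_one] at h5
    linear_combination h5
  have hc1 : ∀ f g : ℂ⟦X⟧, coeff 1 (f * g) = coeff 0 f * coeff 1 g + coeff 1 f * coeff 0 g := by
    intro f g
    rw [coeff_mul, Finset.Nat.antidiagonal_succ]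
    simp
  have hφ1 : coeff 1 φ = (om ^ 2 - om) * coeff 1 F := by
    have e1 : coeff 0 (w ^ 2 - w) = om ^ 2 - om := by
      rw [map_sub, c0_pow, hw, coeff_zero_C]
    have e2 : coeff 1 (w ^ 2 - w) = 0 := by
      have : w ^ 2 - w = C (om ^ 2 - om) := by rw [hw, map_sub, map_pow]
      rw [this, coeff_C, if_neg one_ne_zero]
    have e3 : coeff 0 ((1 + F + F ^ 2) * ψ) = 1 := by
      rw [c0_mul, map_add, map_add, c0_one, hF0, c0_pow, hF0, hψ0]; norm_num
    rw [hφd, hc1, hc1, e1, e2, hF0, e3]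
    ring
  have hbig : r < ‖coeff 1 φ‖ := by
    rw [hφ1, norm_mul, om_diff_norm]
    have e : r = Real.sqrt 3 * Real.exp (T - Real.log 3 / 2) := by
      rw [h3, ← Real.exp_add, hrT]; congr 1; ring
    rw [e]
    exact mul_lt_mul_of_pos_left hF1 sqrt3_pos
  set Ψ : ℂ⟦X⟧ := (-w ^ 2 * (1 - F) * ((1 + w * F + w ^ 2 * F ^ 2) * ψ)) *
      (-w * (1 - F) * ((1 + w ^ 2 * F + w * F ^ 2) * ψ)) with hΨ
  have hΨc : Conv Ψ := by
    have c1 := (hwc.pow 2).neg.mul (conv_one.sub hF)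
    have c2 := ((conv_one.add (hwc.mul hF)).add ((hwc.pow 2).mul (hF.pow 2))).mul hψ
    have c3 := hwc.neg.mul (conv_one.sub hF)
    have c4 := ((conv_one.add ((hwc.pow 2).mul hF)).add (hwc.mul (hF.pow 2))).mul hψ
    exact (c1.mul c2).mul (c3.mul c4)
  have hfin : (φ - w) * (1 + w - φ) * Ψ = 1 := by
    have e1 : (φ - w) * (1 - F) = w ^ 2 * F - w := by linear_combination hφF
    have e2 : (1 + w - φ) * (1 - F) = -w ^ 2 + w * F := by
      linear_combination -hφF + (1 - F) * hw2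
    have e3 : (φ - w) * (-w ^ 2 * (1 - F) * ((1 + w * F + w ^ 2 * F ^ 2) * ψ)) = 1 := by
      linear_combination (-w ^ 2 * ((1 + w * F + w ^ 2 * F ^ 2) * ψ)) * e1 + hFψ +
        (ψ * (1 - w * F ^ 3 * w ^ 2 - F ^ 3)) * hw3
    have e4 : (1 + w - φ) * (-w * (1 - F) * ((1 + w ^ 2 * F + w * F ^ 2) * ψ)) = 1 := by
      linear_combination (-w * ((1 + w ^ 2 * F + w * F ^ 2) * ψ)) * e2 + hFψ +
        (ψ * (1 - F ^ 3 + w ^ 2 * F)) * hw3
    calc (φ - w) * (1 + w - φ) * ((-w ^ 2 * (1 - F) * ((1 + w * F + w ^ 2 * F ^ 2) * ψ)) *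
          (-w * (1 - F) * ((1 + w ^ 2 * F + w * F ^ 2) * ψ)))
        = ((φ - w) * (-w ^ 2 * (1 - F) * ((1 + w * F + w ^ 2 * F ^ 2) * ψ))) *
          ((1 + w - φ) * (-w * (1 - F) * ((1 + w ^ 2 * F + w * F ^ 2) * ψ))) := by ring
      _ = 1 := by rw [e3, e4, one_mul]
  obtain ⟨f, h1, h2, h3, h4⟩ := exists_map (F := φ) (ψ := Ψ)
    (q := Polynomial.X * (1 - Polynomial.X)) (c := -om) hφ hΨc hφ0 (by
      rw [Polynomial.eval₂_mul, Polynomial.eval₂_sub, Polynomial.eval₂_one, Polynomial.eval₂_X,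
        map_neg, ← hw]
      linear_combination hfin)
  exact ⟨f, h1, h2, h3, by rw [h4]; exact hbig⟩

theorem base_three : PCurv.IsBasePoint (-om) (Polynomial.X * (1 - Polynomial.X)) := by
  refine ⟨Or.inr ⟨?_, 1, -1, ?_⟩, 1, Subalgebra.one_mem _, ?_⟩
  · have := sqrt3_pos
    simp only [om, Complex.neg_im]
    have h2 : Real.sqrt 3 / 2 ≠ 0 := by positivity
    exact neg_ne_zero.2 h2
  · push_cast
    linear_combination om_sq
  · simp only [map_mul, map_sub, map_one, Polynomial.aeval_X]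
    linear_combination -om_sq

/-- pull-back under the map `x ↦ a x^m` -/
theorem disc_pull {m : ℕ} (hm : m ≠ 0) {a : ℤ} {c : ℂ} (hc : c ≠ 0) (ha : a ≠ 0)
    {q : Polynomial ℤ} {r : ℝ}
    (h : PCurv.HasDisc ((a : ℂ) * c ^ m) (Polynomial.X * q) (m * |(a : ℝ)| * ‖c‖ ^ (m - 1) * r)) :
    PCurv.HasDisc c (Polynomial.X * q.comp (Polynomial.C a * Polynomial.X ^ m)) r := by
  have hm0 : (0 : ℝ) < m := by exact_mod_cast Nat.pos_of_ne_zero hm
  have haC : (a : ℂ) ≠ 0 := by exact_mod_cast ha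
  obtain ⟨φ, h1, h2, h3, h4⟩ := h
  obtain ⟨F, ψ, hF, hψ, hF0, hF1, hFψ⟩ := exists_series h1 h3
  rw [h2] at hFψ
  rw [← hF1] at h4
  -- the function `u = F + a c^m` and its inverse
  set u : ℂ⟦X⟧ := F + C ((a : ℂ) * c ^ m) with hu
  set Q : ℂ⟦X⟧ := Polynomial.eval₂ (Int.castRingHom ℂ⟦X⟧) u q with hQ
  have hX : u * Q * ψ = 1 := by
    rw [Polynomial.eval₂_mul, Polynomial.eval₂_X] at hFψ
    exact hFψ
  have huc : Conv u := hF.add (conv_C _)
  have hQc : Conv Q := by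
    rw [hQ]
    have : ∀ P : Polynomial ℤ, Conv (Polynomial.eval₂ (Int.castRingHom ℂ⟦X⟧) u P) := by
      intro P
      induction P using Polynomial.induction_on' with
      | add P Q hP hQ => rw [Polynomial.eval₂_add]; exact hP.add hQ
      | monomial l b =>
        rw [Polynomial.eval₂_monomial]
        have e : (Int.castRingHom ℂ⟦X⟧) b = C (b : ℂ) := by simp
        rw [e]
        exact (conv_C _).mul (huc.pow _)
    exact this q
  -- the root
  have hC : (C ((a : ℂ)⁻¹) : ℂ⟦X⟧) * C (a : ℂ) = 1 := by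
    rw [← map_mul, inv_mul_cancel₀ haC, map_one]
  obtain ⟨v, hv, hvm, hv0⟩ := exists_root (u := C ((a : ℂ)⁻¹) * u) (u' := C (a : ℂ) * (Q * ψ))
    ((conv_C _).mul huc) ((conv_C _).mul (hQc.mul hψ)) (by
      linear_combination (C ((a : ℂ)⁻¹) * C (a : ℂ)) * hX + hC)
    (m := m) (Nat.one_le_iff_ne_zero.2 hm) (c := c) (by
      rw [coeff_C_mul, hu, map_add, hF0, coeff_zero_C, zero_add, ← mul_assoc,
        inv_mul_cancel₀ haC, one_mul])
  have hvu : C (a : ℂ) * v ^ m = u := by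
    rw [hvm, ← mul_assoc, mul_comm (C (a : ℂ)), hC, one_mul]
  -- the inverse of `v`
  obtain ⟨k, rfl⟩ : ∃ k, m = k + 1 := ⟨m - 1, by omega⟩
  obtain ⟨f, g1, g2, g3, g4⟩ := exists_map (F := v - C c) (ψ := C (a : ℂ) * v ^ k * ψ)
    (q := Polynomial.X * q.comp (Polynomial.C a * Polynomial.X ^ (k + 1))) (c := c)
    (hv.sub (conv_C _)) (((conv_C _).mul (hv.pow _)).mul hψ)
    (by rw [map_sub, hv0, coeff_zero_C, sub_self]) (by
      have e : (Int.castRingHom ℂ⟦X⟧) a = C (a : ℂ) := by simp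
      rw [sub_add_cancel, Polynomial.eval₂_mul, Polynomial.eval₂_X, Polynomial.eval₂_comp,
        Polynomial.eval₂_mul, Polynomial.eval₂_C, Polynomial.eval₂_X_pow, e, hvu, ← hQ]
      calc v * Q * (C (a : ℂ) * v ^ k * ψ) = (C (a : ℂ) * v ^ (k + 1)) * Q * ψ := by ring
        _ = 1 := by rw [hvu, hX])
  refine ⟨f, g1, g2, g3, ?_⟩
  rw [g4]
  have hc1 : coeff 1 (v - C c) = coeff 1 v := by
    rw [map_sub, coeff_C, if_neg one_ne_zero, sub_zero]
  rw [hc1]
  -- the derivative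
  have hd := congrArg (fun z => coeff 0 (d⁄dX ℂ z)) hvu
  rw [Derivation.leibniz, derivative_C, smul_zero, add_zero, smul_eq_mul, derivative_pow,
    coeff_C_mul, hu, map_add, derivative_C, add_zero, c0_mul, c0_mul, coeff_derivative,
    coeff_derivative, c0_pow, hv0] at hd
  simp only [Nat.add_sub_cancel] at hd
  have e1 : coeff 0 (((k + 1 : ℕ) : ℂ⟦X⟧)) = ((k + 1 : ℕ) : ℂ) := by
    have : ((k + 1 : ℕ) : ℂ⟦X⟧) = C ((k + 1 : ℕ) : ℂ) := by simp
    rw [this, coeff_zero_C]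
  rw [e1] at hd
  have hd2 : coeff 1 F = (a : ℂ) * (((k + 1 : ℕ) : ℂ) * c ^ k * coeff 1 v) := by
    simpa using hd.symm
  rw [hd2, norm_mul, norm_mul, norm_mul, norm_pow, Complex.norm_natCast, Complex.norm_intCast] at h4
  simp only [Nat.add_sub_cancel] at h4
  have hpos : 0 < ((k + 1 : ℕ) : ℝ) * |(a : ℝ)| * ‖c‖ ^ k := by
    have h5 : 0 < ‖c‖ := norm_pos_iff.2 hc
    have h6 : 0 < |(a : ℝ)| := by simpa using ha
    positivity
  refine lt_of_mul_lt_mul_left ?_ hpos.le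
  calc ((k + 1 : ℕ) : ℝ) * |(a : ℝ)| * ‖c‖ ^ k * r < |(a : ℝ)| * (((k + 1 : ℕ) : ℝ) * ‖c‖ ^ k * ‖coeff 1 v‖) := h4
    _ = _ := by ring

/-- pull-back of the thrice punctured line under the map `x ↦ -x^m` -/
theorem disc_pull_three {m : ℕ} (hm : m ≠ 0) {c : ℂ} (hcn : ‖c‖ = 1) (hc : -c ^ m = -om) {r : ℝ}
    (hr0 : 0 < r) (hr : m * r < Real.sqrt 3 * Real.exp (Real.log 16 / 3)) :
    PCurv.HasDisc c (Polynomial.X * (1 + Polynomial.X ^ m)) r := by
  have hm0 : (0 : ℝ) < m := by exact_mod_cast Nat.pos_of_ne_zero hm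
  have hc0 : c ≠ 0 := by
    rintro rfl
    rw [norm_zero] at hcn
    exact zero_ne_one hcn
  have h1 := disc_three (r := m * r) (by positivity) hr
  have h2 := disc_pull hm (a := -1) hc0 (by norm_num) (q := 1 - Polynomial.X) (r := r) (by
    have e1 : ((-1 : ℤ) : ℂ) * c ^ m = -om := by push_cast; linear_combination hc
    have e2 : (m : ℝ) * |((-1 : ℤ) : ℝ)| * ‖c‖ ^ (m - 1) * r = m * r := by
      rw [hcn, one_pow]; simp
    rw [e1, e2]
    exact h1)
  have e3 : (1 - Polynomial.X : Polynomial ℤ).comp (Polynomial.C (-1) * Polynomial.X ^ m) =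
      1 + Polynomial.X ^ m := by
    simp
  rwa [e3] at h2

theorem base_pull {c : ℂ} {m : ℕ} (hi : c.im ≠ 0) (h1 : c ^ 2 + c + 1 = 0) {u : ℂ}
    (hu1 : u ∈ Algebra.adjoin ℤ {c}) (hu : u * (c * (1 + c ^ m)) = 1) :
    PCurv.IsBasePoint c (Polynomial.X * (1 + Polynomial.X ^ m)) := by
  refine ⟨Or.inr ⟨hi, -1, -1, ?_⟩, u, hu1, ?_⟩
  · push_cast
    linear_combination h1
  · simp only [map_mul, map_add, map_one, map_pow, Polynomial.aeval_X]
    exact hu

theorem om_im : om.im ≠ 0 := by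
  have := sqrt3_pos
  simp only [om]
  positivity

theorem om2_im : (om ^ 2).im ≠ 0 := by
  have e : om ^ 2 = -1 - om := by linear_combination om_sq
  rw [e, Complex.sub_im, Complex.neg_im, Complex.one_im, neg_zero, zero_sub]
  exact neg_ne_zero.2 om_im

/-- the complement of `0, i, -i` -/
theorem four : PCurv.IsBasePoint (om ^ 2) (Polynomial.X * (1 + Polynomial.X ^ 2)) ∧
    ∀ r : ℝ, 0 < r → 2 * r < Real.sqrt 3 * Real.exp (Real.log 16 / 3) →
      PCurv.HasDisc (om ^ 2) (Polynomial.X * (1 + Polynomial.X ^ 2)) r := by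
  constructor
  · refine base_pull (u := -(om ^ 2)) om2_im ?_
      (Subalgebra.neg_mem _ (Algebra.self_mem_adjoin_singleton ℤ _)) ?_
    · linear_combination (om ^ 2 - om + 1) * om_sq
    · linear_combination (-(om + om ^ 5 + om ^ 2)) * om_cube - om_sq
  · intro r hr0 hr
    refine disc_pull_three (by norm_num) (by rw [norm_pow, om_norm, one_pow]) ?_ hr0
      (by exact_mod_cast hr)
    linear_combination (-om) * om_cube

/-- the complement of `0` and the roots of `x^4 = -1` -/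
theorem six : PCurv.IsBasePoint om (Polynomial.X * (1 + Polynomial.X ^ 4)) ∧
    ∀ r : ℝ, 0 < r → 4 * r < Real.sqrt 3 * Real.exp (Real.log 16 / 3) →
      PCurv.HasDisc om (Polynomial.X * (1 + Polynomial.X ^ 4)) r := by
  constructor
  · refine base_pull (u := -1) om_im om_sq (Subalgebra.neg_mem _ (Subalgebra.one_mem _)) ?_
    linear_combination (-(om ^ 2)) * om_cube - om_sq
  · intro r hr0 hr
    refine disc_pull_three (by norm_num) om_norm ?_ hr0 (by exact_mod_cast hr)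
    linear_combination (-om) * om_cube

end Pool.Agent.N780
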